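import Mathlib
set_option autoImplicit false

namespace Pool.Agent.Results.MP_b18d32_an.LuzinAlgebra.Her

open Filter Topology

/-- A left Banach module structure on `X` over a (not necessarily unital) Banach algebra `A`:
a bounded bilinear action with `act (a * b) x = act a (act b x)`. -/
structure LeftBanachModule (A X : Type) [NonUnitalNormedRing A] [NormedSpace ℂ A]
    [NormedAddCommGroup X] [NormedSpace ℂ X] where
  /-- the action -/
  act : A → X → X
  add_act : ∀ (a b : A) (x : X), act (a + b) x = act a x + act b x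
  smul_act : ∀ (c : ℂ) (a : A) (x : X), act (c • a) x = c • act a x
  act_add : ∀ (a : A) (x y : X), act a (x + y) = act a x + act a y
  act_smul : ∀ (c : ℂ) (a : A) (x : X), act a (c • x) = c • act a x
  mul_act : ∀ (a b : A) (x : X), act (a * b) x = act a (act b x)
  bounded : ∃ C : ℝ, ∀ (a : A) (x : X), ‖act a x‖ ≤ C * ‖a‖ * ‖x‖

section
variable {A : Type} [NonUnitalNormedRing A] [NormedSpace ℂ A]

/-- Module morphisms: bounded linear maps commuting with the actions. -/
def IsModuleMap {X Y : Type} [NormedAddCommGroup X] [NormedSpace ℂ X] [NormedAddCommGroup Y]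
    [NormedSpace ℂ Y] (mX : LeftBanachModule A X) (mY : LeftBanachModule A Y)
    (σ : X →L[ℂ] Y) : Prop :=
  ∀ (a : A) (x : X), σ (mX.act a x) = mY.act a (σ x)

/-- Projectivity in the relative (Helemskii) sense: for every module morphism `σ : X → Y` of left
Banach modules which has a bounded linear right inverse `ρ` (an admissible epimorphism), every
module morphism `φ : P → Y` lifts to a module morphism `ψ : P → X` with `σ ∘ ψ = φ`. -/
def IsProjectiveModule {P : Type} [NormedAddCommGroup P] [NormedSpace ℂ P]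
    (mP : LeftBanachModule A P) : Prop :=
  ∀ (X Y : Type) [NormedAddCommGroup X] [NormedSpace ℂ X] [CompleteSpace X]
    [NormedAddCommGroup Y] [NormedSpace ℂ Y] [CompleteSpace Y]
    (mX : LeftBanachModule A X) (mY : LeftBanachModule A Y) (σ : X →L[ℂ] Y),
    IsModuleMap mX mY σ → (∃ ρ : Y →L[ℂ] X, ∀ y, σ (ρ y) = y) →
    ∀ φ : P →L[ℂ] Y, IsModuleMap mP mY φ →
      ∃ ψ : P →L[ℂ] X, IsModuleMap mP mX ψ ∧ ∀ p, σ (ψ p) = φ p

variable [IsScalarTower ℂ A A] [SMulCommClass ℂ A A]

/-- A left ideal `I` as a left Banach module, with action `(a, x) ↦ a * x`. -/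
def idealModule (I : Submodule ℂ A) (hI : ∀ a x : A, x ∈ I → a * x ∈ I) :
    LeftBanachModule A I where
  act := fun a x => ⟨a * x, hI a x x.2⟩
  add_act := fun a b x => Subtype.ext (add_mul a b (x : A))
  smul_act := fun c a x => Subtype.ext (smul_mul_assoc c a (x : A))
  act_add := fun a x y => Subtype.ext (mul_add a (x : A) (y : A))
  act_smul := fun c a x => Subtype.ext (mul_smul_comm c a (x : A))
  mul_act := fun a b x => Subtype.ext (mul_assoc a b (x : A))
  bounded := ⟨1, fun a x => by rw [one_mul]; exact norm_mul_le a (x : A)⟩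

lemma idealModule_act (I : Submodule ℂ A) (hI : ∀ a x : A, x ∈ I → a * x ∈ I) (a : A) (x : I) :
    (((idealModule I hI).act a x : I) : A) = a * x := rfl

end

/-- A Banach algebra is (left) hereditary if each of its closed left ideals is projective. -/
def IsHereditary (A : Type) [NonUnitalNormedRing A] [NormedSpace ℂ A] [IsScalarTower ℂ A A]
    [SMulCommClass ℂ A A] : Prop :=
  ∀ (I : Submodule ℂ A) (hI : ∀ a x : A, x ∈ I → a * x ∈ I), IsClosed (I : Set A) →
    IsProjectiveModule (idealModule I hI)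

/-- A hereditary C*-algebra. -/
def HereditaryCStar (A : Type) [NonUnitalCStarAlgebra A] : Prop := IsHereditary A

/-- `B` is a commutative C*-subalgebra: norm-closed, self-adjoint and commutative. -/
def IsCommCStarSub {A : Type} [NonUnitalCStarAlgebra A] (B : NonUnitalStarSubalgebra ℂ A) : Prop :=
  IsClosed (B : Set A) ∧ ∀ x ∈ B, ∀ y ∈ B, x * y = y * x

/-- The subalgebra `B`, as a Banach algebra in its own right, is hereditary. -/
def SubHereditary {A : Type} [NonUnitalCStarAlgebra A] (B : NonUnitalStarSubalgebra ℂ A) : Prop :=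
  IsHereditary B

/-- The action as a bounded bilinear map. -/
noncomputable def actL {A X : Type} [NonUnitalNormedRing A] [NormedSpace ℂ A]
    [NormedAddCommGroup X] [NormedSpace ℂ X] (mX : LeftBanachModule A X) : A →L[ℂ] X →L[ℂ] X :=
  LinearMap.mkContinuous₂ (LinearMap.mk₂ ℂ mX.act mX.add_act mX.smul_act mX.act_add mX.act_smul)
    mX.bounded.choose mX.bounded.choose_spec

lemma actL_apply {A X : Type} [NonUnitalNormedRing A] [NormedSpace ℂ A]
    [NormedAddCommGroup X] [NormedSpace ℂ X] (mX : LeftBanachModule A X) (a : A) (x : X) :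
    actL mX a x = mX.act a x := rfl

/-! functions -/

noncomputable def u : ℕ → ℝ → ℝ
  | 0 => fun _ => 0
  | (k+1) => fun t => min 1 (max 0 (2^k * t - 1))

lemma u_zero (k : ℕ) : u k 0 = 0 := by
  cases k <;> simp [u]

lemma u_cont (k : ℕ) : Continuous (u k) := by
  cases k
  · exact continuous_const
  · unfold u; fun_prop

lemma u_nonneg (k : ℕ) (t : ℝ) : 0 ≤ u k t := by
  cases k <;> simp [u]

lemma u_le (k : ℕ) (t : ℝ) : u k t ≤ 1 := by
  cases k <;> simp [u]

lemma u_dich (k : ℕ) (t : ℝ) : u k t = 0 ∨ u (k+1) t = 1 := by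
  rcases k with _ | k
  · left; rfl
  · by_cases h : 2^k * t - 1 ≤ 0
    · left
      simp only [u]
      rw [max_eq_left h]; norm_num
    · right
      push Not at h
      simp only [u]
      apply min_eq_left
      apply le_max_of_le_right
      rw [pow_succ]
      nlinarith

lemma u_mono (k : ℕ) (t : ℝ) : u k t ≤ u (k+1) t := by
  rcases u_dich k t with h | h
  · rw [h]; exact u_nonneg _ _
  · rw [h]; exact u_le _ _

lemma u_mono' (k l : ℕ) (h : k ≤ l) (t : ℝ) : u k t ≤ u l t :=
  monotone_nat_of_le_succ (f := fun k => u k t) (fun k => u_mono k t) h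

noncomputable def w (k : ℕ) (t : ℝ) : ℝ := u (k+1) t - u k t
noncomputable def f (k : ℕ) (t : ℝ) : ℝ := u (k+2) t - u (k-1) t

lemma w_nonneg (k : ℕ) (t : ℝ) : 0 ≤ w k t := sub_nonneg.2 (u_mono k t)
lemma f_nonneg (k : ℕ) (t : ℝ) : 0 ≤ f k t := sub_nonneg.2 (u_mono' _ _ (by omega) t)

lemma w_sum (N : ℕ) (t : ℝ) : ∑ k ∈ Finset.range N, w k t = u N t := by
  induction N with
  | zero => simp [u]
  | succ n ih => rw [Finset.sum_range_succ, ih, w]; ring

lemma f_sum (N : ℕ) (t : ℝ) : ∑ k ∈ Finset.range N, f k t ≤ u (N+1) t + u N t + u (N-1) t := by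
  induction N with
  | zero => simp [u_nonneg, add_nonneg]
  | succ n ih =>
    rw [Finset.sum_range_succ, f]
    simp only [Nat.add_sub_cancel]
    linarith

lemma wf (k : ℕ) (t : ℝ) : w k t * f k t = w k t := by
  rcases u_dich (k+1) t with h | h
  · have h0 : w k t = 0 := by
      have := u_mono k t
      have := u_nonneg k t
      unfold w; linarith
    rw [h0, zero_mul]
  · rcases k with _ | k
    · have : f 0 t = 1 := by
        simp only [f]
        rw [show (0 + 2) = (0+1)+1 from rfl, h]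
        simp [u]
      rw [this, mul_one]
    · rcases u_dich k t with h2 | h2
      · have : f (k+1) t = 1 := by
          simp only [f, Nat.add_sub_cancel, h2, sub_zero]
          exact h
        rw [this, mul_one]
      · have h0 : w (k+1) t = 0 := by
          have h3 := u_mono (k+1) t
          have h4 := u_le (k+1+1) t
          unfold w; linarith
        rw [h0, zero_mul]

lemma uu (k l : ℕ) (h : k < l) (t : ℝ) : u l t * u k t = u k t := by
  rcases u_dich k t with h1 | h1
  · rw [h1, mul_zero]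
  · have h2 : u l t = 1 := le_antisymm (u_le _ _) (h1 ▸ u_mono' _ _ h t)
    rw [h2, one_mul]

lemma wu (n k : ℕ) (h : k < n) (t : ℝ) : w n t * u k t = 0 := by
  unfold w
  rw [sub_mul, uu k (n+1) (by omega), uu k n h, sub_self]

/-- `t (1 - u_k t)^2` is small -/
lemma u_small (k : ℕ) (t : ℝ) (ht : 0 ≤ t) : |t - u (k+1) t * t - t * u (k+1) t + u (k+1) t * t * u (k+1) t| ≤ 2 / 2^k := by
  have h1 : t - u (k+1) t * t - t * u (k+1) t + u (k+1) t * t * u (k+1) t = t * (1 - u (k+1) t)^2 := by ring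
  rw [h1, abs_of_nonneg (by positivity)]
  have hp : (0:ℝ) < 2^k := by positivity
  by_cases h : t ≤ 2 / 2^k
  · have h2 := u_nonneg (k+1) t
    have h3 := u_le (k+1) t
    have h4 : (1 - u (k+1) t)^2 ≤ 1 := by nlinarith
    calc t * (1 - u (k+1) t)^2 ≤ t * 1 := by gcongr
      _ ≤ _ := by simpa using h
  · push Not at h
    have : u (k+1) t = 1 := by
      simp only [u]
      apply min_eq_left
      apply le_max_of_le_right
      rw [div_lt_iff₀ hp] at h
      linarith
    rw [this]; simp; positivity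

/-- averaging over signs -/
lemma avg {E F G : Type} [NormedAddCommGroup E] [NormedSpace ℂ E] [NormedAddCommGroup F]
    [NormedSpace ℂ F] [NormedAddCommGroup G] [NormedSpace ℂ G] (B : E →L[ℂ] F →L[ℂ] G)
    (x : ℕ → E) (y : ℕ → F) (K L : ℝ) (N : ℕ) : ∀ (x0 : E) (y0 : F),
    (∀ ε : ℕ → ℝ, (∀ i, ε i = 1 ∨ ε i = -1) →
      ‖x0 + ∑ i ∈ Finset.range N, (ε i : ℂ) • x i‖ ≤ K) →
    (∀ ε : ℕ → ℝ, (∀ i, ε i = 1 ∨ ε i = -1) →
      ‖y0 + ∑ i ∈ Finset.range N, (ε i : ℂ) • y i‖ ≤ L) →
    ‖B x0 y0 + ∑ i ∈ Finset.range N, B (x i) (y i)‖ ≤ ‖B‖ * K * L := by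
  induction N with
  | zero =>
    intro x0 y0 hx hy
    have h1 := hx (fun _ => 1) (fun _ => Or.inl rfl)
    have h2 := hy (fun _ => 1) (fun _ => Or.inl rfl)
    simp only [Finset.range_zero, Finset.sum_empty, add_zero] at h1 h2 ⊢
    calc ‖B x0 y0‖ ≤ ‖B‖ * ‖x0‖ * ‖y0‖ := B.le_opNorm₂ x0 y0
      _ ≤ _ := by
        have := norm_nonneg x0
        have := norm_nonneg y0
        have := norm_nonneg B
        have hK : 0 ≤ K := (norm_nonneg x0).trans h1
        gcongr
  | succ N ih =>
    intro x0 y0 hx hy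
    have key : ∀ s : ℝ, (s = 1 ∨ s = -1) →
        ‖B (x0 + (s:ℂ) • x N) (y0 + (s:ℂ) • y N) + ∑ i ∈ Finset.range N, B (x i) (y i)‖
          ≤ ‖B‖ * K * L := by
      intro s hs
      apply ih
      · intro ε hε
        have h := hx (fun i => if i = N then s else ε i) (fun i => by
          by_cases h : i = N <;> simp [h, hs, hε])
        rw [Finset.sum_range_succ] at h
        have h2 : ∑ i ∈ Finset.range N, (((if i = N then s else ε i : ℝ)) : ℂ) • x i =
            ∑ i ∈ Finset.range N, (ε i : ℂ) • x i := by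
          apply Finset.sum_congr rfl
          intro i hi
          rw [if_neg (by have := Finset.mem_range.1 hi; omega)]
        rw [h2] at h
        simp only [if_true] at h
        rwa [add_assoc, add_comm ((s:ℂ) • x N)]
      · intro ε hε
        have h := hy (fun i => if i = N then s else ε i) (fun i => by
          by_cases h : i = N <;> simp [h, hs, hε])
        rw [Finset.sum_range_succ] at h
        have h2 : ∑ i ∈ Finset.range N, (((if i = N then s else ε i : ℝ)) : ℂ) • y i =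
            ∑ i ∈ Finset.range N, (ε i : ℂ) • y i := by
          apply Finset.sum_congr rfl
          intro i hi
          rw [if_neg (by have := Finset.mem_range.1 hi; omega)]
        rw [h2] at h
        simp only [if_true] at h
        rwa [add_assoc, add_comm ((s:ℂ) • y N)]
    have h1 := key 1 (Or.inl rfl)
    have h2 := key (-1) (Or.inr rfl)
    rw [Finset.sum_range_succ]
    set S := ∑ i ∈ Finset.range N, B (x i) (y i) with hS
    have h3 : (2:ℂ) • (B x0 y0 + (S + B (x N) (y N))) =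
        (B (x0 + ((1:ℝ):ℂ) • x N) (y0 + ((1:ℝ):ℂ) • y N) + S) +
        (B (x0 + ((-1:ℝ):ℂ) • x N) (y0 + ((-1:ℝ):ℂ) • y N) + S) := by
      simp only [Complex.ofReal_one, one_smul, Complex.ofReal_neg, neg_smul, map_add, map_neg,
        add_apply, neg_apply, two_smul]
      abel
    have h4 := norm_add_le (B (x0 + ((1:ℝ):ℂ) • x N) (y0 + ((1:ℝ):ℂ) • y N) + S)
      (B (x0 + ((-1:ℝ):ℂ) • x N) (y0 + ((-1:ℝ):ℂ) • y N) + S)
    rw [← h3, norm_smul, Complex.norm_ofNat] at h4
    linarith


section sep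
variable {A : Type} [NonUnitalCStarAlgebra A]

lemma cfc_w_sum (h : A) (g : ℕ → ℝ → ℝ) (hg : ∀ k, Continuous (g k)) (hg0 : ∀ k, g k 0 = 0)
    (hnn : ∀ k t, 0 ≤ g k t) (C : ℝ) (N : ℕ) (hC : ∀ t, ∑ k ∈ Finset.range N, g k t ≤ C)
    (ε : ℕ → ℝ) (hε : ∀ i, ε i = 1 ∨ ε i = -1) :
    ‖∑ k ∈ Finset.range N, (ε k : ℂ) • cfcₙ (g k) h‖ ≤ C := by
  have h1 : ∑ k ∈ Finset.range N, (ε k : ℂ) • cfcₙ (g k) h =
      cfcₙ (∑ k ∈ Finset.range N, fun t => ε k * g k t) h := by
    rw [cfcₙ_sum (fun k t => ε k * g k t) h _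
      (fun k _ => (continuous_const.mul (hg k)).continuousOn)
      (fun k _ => by simp [hg0 k])]
    refine Finset.sum_congr rfl (fun k _ => ?_)
    have := cfcₙ_const_mul (ε k) (g k) h ((hg k).continuousOn) (hg0 k)
    rw [this]
    rfl
  rw [h1]
  apply norm_cfcₙ_le
  intro t _
  rw [Finset.sum_apply]
  refine (norm_sum_le _ _).trans ((Finset.sum_le_sum ?_).trans (hC t))
  intro k _
  rw [norm_mul, Real.norm_eq_abs, Real.norm_eq_abs, abs_of_nonneg (hnn k t)]
  rcases hε k with h | h <;> simp [h]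


lemma exists_pos (I : Submodule ℂ A) (hI : ∀ a x : A, x ∈ I → a * x ∈ I)
    (hcl : IsClosed (I : Set A)) [PartialOrder A] [StarOrderedRing A]
    [TopologicalSpace.SeparableSpace A] :
    ∃ x : ℕ → I, DenseRange x ∧ ∃ h : A, h ∈ I ∧ 0 ≤ h ∧
      ∀ n, ∃ C : ℝ, 0 ≤ C ∧ star (x n : A) * (x n : A) ≤ C • h := by
  have hsep : TopologicalSpace.SeparableSpace I := inferInstance
  let x : ℕ → I := TopologicalSpace.denseSeq I
  have hx : DenseRange x := TopologicalSpace.denseRange_denseSeq I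
  let c : ℕ → ℝ := fun n => (1/2)^n / (1 + ‖(x n : A)‖^2)
  have hc : ∀ n, 0 < c n := fun n => by positivity
  let T : ℕ → A := fun n => c n • (star (x n : A) * (x n : A))
  have hTn : ∀ n, ‖T n‖ ≤ (1/2)^n := by
    intro n
    simp only [T, norm_smul, Real.norm_eq_abs, abs_of_pos (hc n), CStarRing.norm_star_mul_self]
    simp only [c]
    rw [div_mul_eq_mul_div, div_le_iff₀ (by positivity)]
    have : (0:ℝ) < (1/2)^n := by positivity
    nlinarith [norm_nonneg (x n : A)]
  have hT0 : ∀ n, 0 ≤ T n := fun n => smul_nonneg (hc n).le (star_mul_self_nonneg _)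
  have hsum : Summable T :=
    Summable.of_norm_bounded (summable_geometric_of_lt_one (by norm_num) (by norm_num)) hTn
  have hTI : ∀ n, T n ∈ I := by
    intro n
    have : T n = (c n : ℂ) • (star (x n : A) * (x n : A)) := rfl
    rw [this]
    exact I.smul_mem _ (hI _ _ (x n).2)
  refine ⟨x, hx, ∑' n, T n, ?_, tsum_nonneg hT0, fun n => ⟨(c n)⁻¹, (inv_pos.2 (hc n)).le, ?_⟩⟩
  · exact hcl.mem_of_tendsto hsum.hasSum.tendsto_sum_nat
      (Filter.Eventually.of_forall (fun N => I.sum_mem (fun n _ => hTI n)))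
  · have h1 : T n ≤ ∑' n, T n := hsum.le_tsum n (fun m _ => hT0 m)
    have h2 := smul_le_smul_of_nonneg_left h1 (inv_pos.2 (hc n)).le
    simp only [T] at h2
    rwa [inv_smul_smul₀ (hc n).ne'] at h2

lemma small (h x : A) [PartialOrder A] [StarOrderedRing A] (hh : 0 ≤ h) (C : ℝ) (hC : 0 ≤ C)
    (hx : star x * x ≤ C • h) (k : ℕ) :
    ‖x - x * cfcₙ (u (k+1)) h‖ ^ 2 ≤ C * (2 / 2^k) := by
  set V := cfcₙ (u (k+1)) h with hV
  have hVsa : star V = V := by
    have : IsSelfAdjoint V := cfcₙ_predicate _ _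
    exact this.star_eq
  have hop : ∀ z : A, 0 ≤ z → 0 ≤ z - V * z - z * V + V * z * V := by
    intro z hz
    obtain ⟨s, rfl⟩ := CStarAlgebra.nonneg_iff_eq_star_mul_self.1 hz
    have : star s * s - V * (star s * s) - star s * s * V + V * (star s * s) * V =
        star (s - s * V) * (s - s * V) := by
      rw [star_sub, star_mul, hVsa]
      noncomm_ring
    rw [this]
    exact star_mul_self_nonneg _
  have h1 : star x * x - V * (star x * x) - star x * x * V + V * (star x * x) * V =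
        star (x - x * V) * (x - x * V) := by
    rw [star_sub, star_mul, hVsa]
    noncomm_ring
  have h2 : star (x - x * V) * (x - x * V) ≤ C • (h - V * h - h * V + V * h * V) := by
    rw [← h1, ← sub_nonneg]
    have h3 := hop _ (sub_nonneg.2 hx)
    have h4 : C • (h - V * h - h * V + V * h * V) -
        (star x * x - V * (star x * x) - star x * x * V + V * (star x * x) * V) =
        (C • h - star x * x) - V * (C • h - star x * x) - (C • h - star x * x) * V +
        V * (C • h - star x * x) * V := by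
      simp only [smul_sub, smul_add, mul_sub, sub_mul, mul_smul_comm, smul_mul_assoc]
      abel
    rw [h4]
    exact h3
  have h5 : ‖h - V * h - h * V + V * h * V‖ ≤ 2 / 2^k := by
    have hsa : IsSelfAdjoint h := IsSelfAdjoint.of_nonneg hh
    have hu := u_cont (k+1)
    have hu0 := u_zero (k+1)
    have e1 : cfcₙ (fun t : ℝ => u (k+1) t * t) h = V * h := by
      rw [cfcₙ_mul (u (k+1)) (fun t => t) h hu.continuousOn hu0 continuousOn_id rfl, cfcₙ_id' ℝ h]
    have e2 : cfcₙ (fun t : ℝ => t * u (k+1) t) h = h * V := by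
      rw [cfcₙ_mul (fun t => t) (u (k+1)) h continuousOn_id rfl hu.continuousOn hu0, cfcₙ_id' ℝ h]
    have e3 : cfcₙ (fun t : ℝ => u (k+1) t * t * u (k+1) t) h = V * h * V := by
      rw [cfcₙ_mul (fun t => u (k+1) t * t) (u (k+1)) h (hu.mul continuous_id).continuousOn (by simp)
        hu.continuousOn hu0, e1]
    have e4 : cfcₙ (fun t : ℝ => t - u (k+1) t * t - t * u (k+1) t + u (k+1) t * t * u (k+1) t) h =
        h - V * h - h * V + V * h * V := by
      rw [cfcₙ_add (fun t => t - u (k+1) t * t - t * u (k+1) t) (fun t => u (k+1) t * t * u (k+1) t) h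
        (by fun_prop) (by simp) (by fun_prop) (by simp),
        cfcₙ_sub (fun t => t - u (k+1) t * t) (fun t => t * u (k+1) t) h
        (by fun_prop) (by simp) (by fun_prop) (by simp),
        cfcₙ_sub (fun t => t) (fun t => u (k+1) t * t) h
        (by fun_prop) (by simp) (by fun_prop) (by simp), e1, e2, e3, cfcₙ_id' ℝ h]
    rw [← e4]
    apply norm_cfcₙ_le
    intro t ht
    exact u_small k t (quasispectrum_nonneg_of_nonneg h hh t ht)
  have h6 := CStarAlgebra.norm_le_norm_of_nonneg_of_le (star_mul_self_nonneg (x - x * V)) h2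
  rw [CStarRing.norm_star_mul_self, norm_smul, Real.norm_eq_abs, abs_of_nonneg hC] at h6
  calc ‖x - x * V‖^2 = ‖x - x * V‖ * ‖x - x * V‖ := by ring
    _ ≤ _ := h6.trans (by gcongr)


theorem hereditary_of_separable [TopologicalSpace.SeparableSpace A] : IsHereditary A := by
  intro I hI hcl X Y _ _ _ _ _ _ mX mY σ hσ ⟨ρ, hρ⟩ φ hφ
  let _ := CStarAlgebra.spectralOrder A
  have := CStarAlgebra.spectralOrderedRing A
  obtain ⟨x, hxd, h, hhI, hh0, hC⟩ := exists_pos I hI hcl
  have hsa : IsSelfAdjoint h := IsSelfAdjoint.of_nonneg hh0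
  let V : ℕ → A := fun k => cfcₙ (u k) h
  let W : ℕ → A := fun k => cfcₙ (w k) h
  let F : ℕ → A := fun k => cfcₙ (f k) h
  have hwc : ∀ k, Continuous (w k) := fun k => (u_cont (k+1)).sub (u_cont k)
  have hfc : ∀ k, Continuous (f k) := fun k => (u_cont (k+2)).sub (u_cont (k-1))
  have hw0 : ∀ k, w k 0 = 0 := fun k => by simp [w, u_zero]
  have hf0 : ∀ k, f k 0 = 0 := fun k => by simp [f, u_zero]
  have hVI : ∀ k, V k ∈ I := by
    intro k
    rcases k with _ | k
    · have : V 0 = 0 := by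
        simp only [V]
        rw [show (u 0) = (0 : ℝ → ℝ) from rfl, cfcₙ_zero]
      rw [this]; exact I.zero_mem
    · have hp : (0:ℝ) < 1 / 2^k := by positivity
      have e : V (k+1) = cfcₙ (fun t : ℝ => u (k+1) t / max t (1/2^k)) h * h := by
        conv_rhs => rw [← cfcₙ_id' ℝ h]
        rw [cfcₙ_id' ℝ h]
        have hcont : Continuous (fun t : ℝ => u (k+1) t / max t (1/2^k)) :=
          (u_cont (k+1)).div (continuous_id.max continuous_const)
            (fun t => (lt_max_of_lt_right hp).ne')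
        have := cfcₙ_mul (fun t : ℝ => u (k+1) t / max t (1/2^k)) (fun t => t) h
          hcont.continuousOn (by simp [u_zero]) continuousOn_id rfl
        rw [cfcₙ_id' ℝ h] at this
        rw [← this]
        simp only [V]
        congr 1
        ext t
        by_cases ht : t ≤ 1/2^k
        · have : u (k+1) t = 0 := by
            simp only [u]
            have h2 : 2^k * t - 1 ≤ 0 := by
              rw [le_div_iff₀ (by positivity)] at ht
              linarith
            rw [max_eq_left h2]; norm_num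
          rw [this]; simp
        · push Not at ht
          rw [max_eq_left ht.le, div_mul_cancel₀ _ (by linarith)]
      rw [e]
      exact hI _ _ hhI
  have hFe : ∀ k, F k = V (k+2) - V (k-1) := fun k => by
    simp only [F, V]
    exact cfcₙ_sub (u (k+2)) (u (k-1)) h (u_cont _).continuousOn (u_zero _)
      (u_cont _).continuousOn (u_zero _)
  have hWe : ∀ k, W k = V (k+1) - V k := fun k => by
    simp only [W, V]
    exact cfcₙ_sub (u (k+1)) (u k) h (u_cont _).continuousOn (u_zero _)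
      (u_cont _).continuousOn (u_zero _)
  have hFI : ∀ k, F k ∈ I := fun k => by rw [hFe]; exact I.sub_mem (hVI _) (hVI _)
  have hWF : ∀ k, W k * F k = W k := fun k => by
    simp only [W, F]
    rw [← cfcₙ_mul (w k) (f k) h (hwc k).continuousOn (hw0 k) (hfc k).continuousOn (hf0 k)]
    congr 1
    ext t
    exact wf k t
  have hVW : ∀ k n, k < n → V k * W n = 0 := fun k n hkn => by
    simp only [V, W]
    rw [← cfcₙ_mul (u k) (w n) h (u_cont k).continuousOn (u_zero k) (hwc n).continuousOn (hw0 n)]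
    have : (fun t => u k t * w n t) = (0 : ℝ → ℝ) := by
      ext t
      rw [mul_comm]
      exact wu n k hkn t
    rw [this, cfcₙ_zero]
  have hWs : ∀ N, ∑ n ∈ Finset.range N, W n = V N := by
    intro N
    induction N with
    | zero =>
      simp only [Finset.range_zero, Finset.sum_empty, V]
      rw [show (u 0) = (0 : ℝ → ℝ) from rfl, cfcₙ_zero]
    | succ n ih => rw [Finset.sum_range_succ, ih, hWe]; abel
  have hVn : ∀ k, ‖V k‖ ≤ 1 := fun k => norm_cfcₙ_le (fun t _ => by
    rw [Real.norm_eq_abs, abs_of_nonneg (u_nonneg _ _)]; exact u_le _ _)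
  let FI : ℕ → I := fun k => ⟨F k, hFI k⟩
  let T : I →L[ℂ] X := ρ.comp φ
  let S : ℕ → I →L[ℂ] X := fun N => ∑ n ∈ Finset.range N,
    ((actL mX).flip (T (FI n))).comp (((ContinuousLinearMap.mul ℂ A).flip (W n)).comp I.subtypeL)
  have hS : ∀ N (a : I), S N a = ∑ n ∈ Finset.range N, (actL mX) ((a : A) * W n) (T (FI n)) := by
    intro N a
    simp only [S]
    rw [sum_apply]
    rfl
  have hSn : ∀ N (a : I), ‖S N a‖ ≤ ‖(actL mX)‖ * ‖(a : A)‖ * (3 * ‖T‖) := by
    intro N a
    rw [hS]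
    have := avg (actL mX) (fun n => (a : A) * W n) (fun n => T (FI n)) ‖(a : A)‖ (3 * ‖T‖) N 0 0
      (by
        intro ε hε
        have e1 : ∑ i ∈ Finset.range N, (ε i : ℂ) • ((a : A) * W i) =
            (a : A) * ∑ i ∈ Finset.range N, (ε i : ℂ) • W i := by
          rw [Finset.mul_sum]
          exact Finset.sum_congr rfl (fun i _ => (mul_smul_comm _ _ _).symm)
        rw [zero_add, e1]
        have e2 := cfc_w_sum h w hwc hw0 w_nonneg 1 N (fun t => by rw [w_sum]; exact u_le _ _) ε hε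
        refine (norm_mul_le _ _).trans ?_
        calc ‖(a : A)‖ * ‖∑ i ∈ Finset.range N, (ε i : ℂ) • W i‖ ≤ ‖(a : A)‖ * 1 := by
              gcongr
          _ = _ := mul_one _)
      (by
        intro ε hε
        have e1 : ∑ i ∈ Finset.range N, (ε i : ℂ) • T (FI i) =
            T (∑ i ∈ Finset.range N, (ε i : ℂ) • FI i) := by
          rw [map_sum]
          exact Finset.sum_congr rfl (fun i _ => (map_smul _ _ _).symm)
        rw [zero_add, e1]
        have e2 := cfc_w_sum h f hfc hf0 f_nonneg 3 N (fun t => by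
          refine (f_sum N t).trans ?_
          have := u_le (N+1) t
          have := u_le N t
          have := u_le (N-1) t
          linarith) ε hε
        have e3 : ‖∑ i ∈ Finset.range N, (ε i : ℂ) • FI i‖ ≤ 3 := by
          have : ((∑ i ∈ Finset.range N, (ε i : ℂ) • FI i : I) : A) =
              ∑ i ∈ Finset.range N, (ε i : ℂ) • F i := by
            rw [Submodule.coe_sum]
            rfl
          have e4 : ‖∑ i ∈ Finset.range N, (ε i : ℂ) • FI i‖ =
              ‖((∑ i ∈ Finset.range N, (ε i : ℂ) • FI i : I) : A)‖ := rfl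
          rw [e4, this]
          exact e2
        calc ‖T (∑ i ∈ Finset.range N, (ε i : ℂ) • FI i)‖ ≤ ‖T‖ * ‖∑ i ∈ Finset.range N, (ε i : ℂ) • FI i‖ :=
              T.le_opNorm _
          _ ≤ ‖T‖ * 3 := by gcongr
          _ = _ := mul_comm _ _)
    simpa using this
  have happ : ∀ (a : I) (δ : ℝ), 0 < δ → ∃ K, ∀ k ≥ K, ‖(a : A) - a * V k‖ ≤ δ := by
    intro a δ hδ
    obtain ⟨n, hn⟩ := hxd.exists_dist_lt a (show (0:ℝ) < δ / 3 by positivity)
    obtain ⟨C, hC0, hC1⟩ := hC n
    have hlim : Tendsto (fun k : ℕ => C * (2 / 2^k)) atTop (𝓝 0) := by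
      have h1 : Tendsto (fun k : ℕ => C * 2 * (1/2 : ℝ)^k) atTop (𝓝 (C * 2 * 0)) :=
        (tendsto_pow_atTop_nhds_zero_of_lt_one (by norm_num) (by norm_num)).const_mul _
      rw [mul_zero] at h1
      refine h1.congr (fun k => ?_)
      rw [one_div, inv_pow]; ring
    obtain ⟨K, hK⟩ := (hlim.eventually (gt_mem_nhds (show (0:ℝ) < (δ/3)^2 by positivity))).exists_forall_of_atTop
    refine ⟨K+1, fun k hk => ?_⟩
    obtain ⟨k, rfl⟩ : ∃ k', k = k' + 1 := ⟨k - 1, by omega⟩
    have h1 : ‖(x n : A) - x n * V (k+1)‖ ≤ δ / 3 := by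
      have h2 := small h (x n : A) hh0 C hC0 hC1 k
      have h3 := hK k (by omega)
      exact (abs_le_of_sq_le_sq' (h2.trans h3.le) (by positivity)).2
    have h4 : ‖(a : A) - x n‖ ≤ δ / 3 := by
      rw [dist_eq_norm] at hn
      exact hn.le
    have h5 : ((a : A) - a * V (k+1)) = (a - x n) + (x n - x n * V (k+1)) - ((a : A) - x n) * V (k+1) := by
      noncomm_ring
    rw [h5]
    have h6 : ‖((a : A) - x n) * V (k+1)‖ ≤ δ / 3 := by
      refine (norm_mul_le _ _).trans ?_
      have := hVn (k+1)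
      nlinarith [norm_nonneg ((a : A) - x n), norm_nonneg (V (k+1))]
    refine (norm_sub_le _ _).trans ?_
    refine (add_le_add (norm_add_le _ _) le_rfl).trans ?_
    linarith
  let M : ℝ := ‖(actL mX)‖ * (3 * ‖T‖)
  have hM : 0 ≤ M := by positivity
  have hcau : ∀ a : I, CauchySeq (fun N => S N a) := by
    intro a
    rw [Metric.cauchySeq_iff']
    intro δ hδ
    obtain ⟨K, hK⟩ := happ a (δ / (4 * (M + 1))) (by positivity)
    refine ⟨K + 1, fun N hN => ?_⟩
    let b : I := ⟨a * V K, hI _ _ (hVI K)⟩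
    have hb : ∀ N ≥ K + 1, S N b = S (K+1) b := by
      intro N hN
      induction N, hN using Nat.le_induction with
      | base => rfl
      | succ N hN ih =>
        rw [hS, Finset.sum_range_succ, ← hS, ih]
        have : (b : A) * W N = 0 := by
          simp only [b]
          rw [mul_assoc, hVW K N (by omega), mul_zero]
        rw [this]; simp
    have h1 : ∀ N, ‖S N (a - b)‖ ≤ δ / 4 := by
      intro N
      refine (hSn N (a - b)).trans ?_
      have h2 : ‖((a - b : I) : A)‖ ≤ δ / (4 * (M + 1)) := hK K le_rfl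
      calc ‖(actL mX)‖ * ‖((a - b : I) : A)‖ * (3 * ‖T‖) = M * ‖((a - b : I) : A)‖ := by
            simp only [M]; ring
        _ ≤ M * (δ / (4 * (M + 1))) := by gcongr
        _ ≤ (M + 1) * (δ / (4 * (M + 1))) := by gcongr; linarith
        _ = δ / 4 := by field_simp
    have h3 : S N a - S (K+1) a = S N (a - b) - S (K+1) (a - b) := by
      rw [map_sub, map_sub, hb N hN]; abel
    rw [dist_eq_norm, h3]
    refine (norm_sub_le _ _).trans_lt ?_
    have := h1 N
    have := h1 (K+1)
    linarith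
  choose ψ0 hψ0 using fun a => cauchySeq_tendsto_of_complete (hcau a)
  let ψ : I →L[ℂ] X := continuousLinearMapOfTendsto S (tendsto_pi_nhds.2 hψ0)
  have hψ : ∀ a, Tendsto (fun N => S N a) atTop (𝓝 (ψ a)) := hψ0
  refine ⟨ψ, ?_, ?_⟩
  · intro c a
    refine tendsto_nhds_unique (hψ _) ?_
    have h1 : Tendsto (fun N => (actL mX) c (S N a)) atTop (𝓝 ((actL mX) c (ψ a))) :=
      (((actL mX) c).continuous.tendsto _).comp (hψ a)
    show Tendsto _ _ (𝓝 ((actL mX) c (ψ a)))
    refine h1.congr (fun N => ?_)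
    rw [hS, hS, map_sum]
    refine Finset.sum_congr rfl (fun n _ => ?_)
    rw [idealModule_act, mul_assoc c (a : A) (W n)]
    exact (mX.mul_act c ((a : A) * W n) _).symm
  · intro a
    have h1 : Tendsto (fun N => σ (S N a)) atTop (𝓝 (σ (ψ a))) :=
      (σ.continuous.tendsto _).comp (hψ a)
    refine tendsto_nhds_unique h1 ?_
    have h2 : ∀ N, σ (S N a) = φ ⟨a * V N, hI _ _ (hVI N)⟩ := by
      intro N
      rw [hS, map_sum]
      have : ∀ n ∈ Finset.range N, σ ((actL mX) ((a : A) * W n) (T (FI n))) =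
          φ ((idealModule I hI).act ((a : A) * W n) (FI n)) := by
        intro n _
        rw [actL_apply, hσ, hφ]
        congr 1
        exact hρ _
      rw [Finset.sum_congr rfl this, ← map_sum]
      congr 1
      apply Subtype.ext
      rw [Submodule.coe_sum]
      simp only [idealModule_act]
      have : ∀ n ∈ Finset.range N, (a : A) * W n * (FI n : A) = a * W n := by
        intro n _
        simp only [FI]
        rw [mul_assoc, hWF]
      rw [Finset.sum_congr rfl this, ← Finset.mul_sum, hWs]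
    simp only [h2]
    refine (φ.continuous.tendsto a).comp ?_
    rw [Metric.tendsto_atTop]
    intro δ hδ
    obtain ⟨K, hK⟩ := happ a (δ/2) (by positivity)
    refine ⟨K, fun N hN => ?_⟩
    rw [dist_comm, dist_eq_norm]
    exact lt_of_le_of_lt (hK N hN) (by linarith)

end sep

end Pool.Agent.Results.MP_b18d32_an.LuzinAlgebra.Her


namespace Pool.Agent.Results.MP_b18d32_an.LuzinAlgebra.Luzin

open Function Set

lemma step {J : Type} [Countable J] [Infinite J] (B : J → Set ℕ) (hB : ∀ j, (B j).Infinite)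
    (hBB : ∀ i j, i ≠ j → (B i ∩ B j).Finite) :
    ∃ S : Set ℕ, S.Infinite ∧ (∀ j, (S ∩ B j).Finite) ∧
      ∀ k : ℕ, {j | S ∩ B j ⊆ Set.Iio k}.Finite := by
  obtain ⟨e⟩ := nonempty_equiv_of_countable (α := ℕ) (β := J)
  have hx : ∀ n : ℕ, ∃ x, x ∈ B (e n) ∧ (∀ m < n, x ∉ B (e m)) ∧ n ≤ x := by
    intro n
    have h1 : (⋃ m ∈ Set.Iio n, (B (e n) ∩ B (e m))).Finite :=
      (Set.finite_Iio n).biUnion (fun m hm => hBB _ _ (fun h => by
        have := e.injective h
        simp at hm
        omega))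
    have h2 := ((hB (e n)).sdiff h1).sdiff (Set.finite_Iio n)
    obtain ⟨x, ⟨hx1, hx2⟩, hx3⟩ := h2.nonempty
    refine ⟨x, hx1, fun m hm hmem => hx2 ?_, ?_⟩
    · simp only [mem_iUnion]
      exact ⟨m, hm, hx1, hmem⟩
    · simpa using hx3
  choose x hx1 hx2 hx3 using hx
  refine ⟨Set.range x, ?_, ?_, ?_⟩
  · apply Set.infinite_of_not_bddAbove
    rintro ⟨M, hM⟩
    have := hM ⟨M+1, rfl⟩
    have := hx3 (M+1)
    omega
  · intro j
    obtain ⟨m, rfl⟩ := e.surjective j
    refine ((Set.finite_Iic m).image x).subset ?_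
    rintro _ ⟨⟨n, rfl⟩, hn⟩
    refine ⟨n, ?_, rfl⟩
    by_contra hcon
    simp at hcon
    exact hx2 n m hcon hn
  · intro k
    refine ((Set.finite_Iio k).image e).subset ?_
    intro j hj
    obtain ⟨n, rfl⟩ := e.surjective j
    refine ⟨n, ?_, rfl⟩
    have h1 : x n < k := hj ⟨⟨n, rfl⟩, hx1 n⟩
    have := hx3 n
    simp; omega

/-- base family -/
def Cb (i : ℕ) : Set ℕ := {n | n.unpair.1 = i}

lemma Cb_inf (i : ℕ) : (Cb i).Infinite := by
  have h : (Set.range (fun m => Nat.pair i m)).Infinite :=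
    Set.infinite_range_of_injective (fun a b h => (Nat.pair_eq_pair.1 h).2)
  refine h.mono ?_
  rintro _ ⟨m, rfl⟩
  simp [Cb]

lemma Cb_disj (i j : ℕ) (h : i ≠ j) : Cb i ∩ Cb j = ∅ := by
  ext n
  simp only [Cb, mem_inter_iff, Set.mem_empty_iff_false, iff_false]
  rintro ⟨h1, h2⟩
  exact h (h1.symm.trans h2)

section
variable {Ω : Type} [LinearOrder Ω] [WellFoundedLT Ω]

def Good (α : Ω) (S : Set ℕ) (prev : ∀ β : Ω, β < α → Set ℕ) : Prop :=
  S.Infinite ∧ (∀ i, (S ∩ Cb i).Finite) ∧ (∀ β (h : β < α), (S ∩ prev β h).Finite) ∧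
    ∀ k : ℕ, {β | ∃ h : β < α, S ∩ prev β h ⊆ Set.Iio k}.Finite

open Classical in
noncomputable def fam : Ω → Set ℕ :=
  WellFounded.fix (wellFounded_lt (α := Ω))
    (fun α prev => if h : ∃ S, Good α S prev then h.choose else ∅)

lemma fam_good (hc : ∀ α : Ω, (Set.Iio α).Countable) (α : Ω) :
    Good α (fam α) (fun β _ => fam β) := by
  induction α using WellFoundedLT.induction with
  | ind α ih =>
    have hex : ∃ S, Good α S (fun β _ => fam β) := by
      have : Countable (Set.Iio α) := (hc α).to_subtype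
      obtain ⟨S, h1, h2, h3⟩ := step (J := ℕ ⊕ Set.Iio α)
        (Sum.elim Cb (fun β => fam (β : Ω))) (by
          rintro (i | β)
          · exact Cb_inf i
          · exact (ih β β.2).1) (by
          have hsymm : ∀ i : ℕ, ∀ β : Set.Iio α, (fam (β : Ω) ∩ Cb i).Finite :=
            fun i β => (ih β β.2).2.1 i
          rintro (i | β) (j | γ) hne
          · have : i ≠ j := fun h => hne (by rw [h])
            simp only [Sum.elim_inl]
            rw [Cb_disj i j this]
            exact Set.finite_empty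
          · simp only [Sum.elim_inl, Sum.elim_inr]
            rw [Set.inter_comm]
            exact hsymm i γ
          · exact hsymm j β
          · simp only [Sum.elim_inr]
            have hne' : (β : Ω) ≠ γ := fun h => hne (by rw [Subtype.ext h])
            rcases lt_or_gt_of_ne hne' with h | h
            · rw [Set.inter_comm]
              exact (ih γ γ.2).2.2.1 β h
            · exact (ih β β.2).2.2.1 γ h)
      refine ⟨S, h1, fun i => h2 (Sum.inl i), fun β h => h2 (Sum.inr ⟨β, h⟩), fun k => ?_⟩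
      have h4 := (h3 k).preimage (f := fun β : Set.Iio α => (Sum.inr β : ℕ ⊕ Set.Iio α))
        (Sum.inr_injective.injOn)
      refine (h4.image (fun β : Set.Iio α => (β : Ω))).subset ?_
      rintro β ⟨hβ, h5⟩
      exact ⟨⟨β, hβ⟩, h5, rfl⟩
    have hf : fam α = hex.choose := by
      unfold fam
      rw [WellFounded.fix_eq]
      exact dif_pos hex
    rw [hf]
    exact hex.choose_spec

lemma fam_inf (hc : ∀ α : Ω, (Set.Iio α).Countable) (α : Ω) : (fam α).Infinite :=
  (fam_good hc α).1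

lemma fam_ad (hc : ∀ α : Ω, (Set.Iio α).Countable) (α β : Ω) (h : α ≠ β) :
    (fam α ∩ fam β).Finite := by
  rcases lt_or_gt_of_ne h with h | h
  · rw [Set.inter_comm]
    exact (fam_good hc β).2.2.1 α h
  · exact (fam_good hc α).2.2.1 β h

/-- The Luzin property -/
lemma fam_luzin (hc : ∀ α : Ω, (Set.Iio α).Countable) (S T : Set Ω) (hS : ¬ S.Countable)
    (hT : ¬ T.Countable) (k : ℕ) : ∃ α ∈ S, ∃ β ∈ T, ∃ n, k ≤ n ∧ n ∈ fam α ∧ n ∈ fam β := by
  have hTi : T.Infinite := fun h => hT h.countable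
  let d := Set.Infinite.natEmbedding T hTi
  have hcd : (⋃ n, Set.Iic (d n : Ω)).Countable := by
    apply Set.countable_iUnion
    intro n
    have : Set.Iic (d n : Ω) ⊆ insert (d n : Ω) (Set.Iio (d n : Ω)) := by
      intro x hx
      rcases lt_or_eq_of_le (show x ≤ (d n : Ω) from hx) with h | h
      · exact Or.inr h
      · exact Or.inl h
    exact ((hc _).insert _).mono this
  have : ∃ α ∈ S, α ∉ (⋃ n, Set.Iic (d n : Ω)) := by
    by_contra hcon
    push Not at hcon
    exact hS (hcd.mono hcon)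
  obtain ⟨α, hα, hα2⟩ := this
  have hlt : ∀ n, (d n : Ω) < α := by
    intro n
    by_contra h
    apply hα2
    simp only [mem_iUnion]
    exact ⟨n, not_lt.1 h⟩
  have hfin := (fam_good hc α).2.2.2 k
  have hinf : (Set.range (fun n => (d n : Ω))).Infinite :=
    Set.infinite_range_of_injective (fun a b h => d.injective (Subtype.ext h))
  obtain ⟨β, ⟨⟨m, rfl⟩, hβ⟩⟩ := (hinf.sdiff hfin).nonempty
  refine ⟨α, hα, d m, (d m).2, ?_⟩
  by_contra hcon
  push Not at hcon
  apply hβ
  refine ⟨hlt m, ?_⟩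
  rintro n ⟨h1, h2⟩
  by_contra h3
  simp at h3
  exact hcon n h3 h1 h2

end

/-- The index set. -/
abbrev Om : Type := (Cardinal.aleph 1).ord.ToType

lemma Om_Iio (α : Om) : (Set.Iio α).Countable := by
  rw [← Cardinal.le_aleph0_iff_set_countable]
  have h := Cardinal.mk_Iio_toType_ord_lt α
  rw [← Order.lt_succ_iff, Cardinal.succ_aleph0]
  exact h

lemma Om_unc : ¬ (Set.univ : Set Om).Countable := by
  rw [← Cardinal.le_aleph0_iff_set_countable, Cardinal.mk_univ, Cardinal.mk_ord_toType]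
  rw [not_le]
  exact Cardinal.aleph0_lt_aleph_one

lemma Om_inj : ∃ t : Om → ℝ, Injective t := by
  have h : Cardinal.mk Om ≤ Cardinal.mk ℝ := by
    rw [Cardinal.mk_ord_toType, Cardinal.mk_real]
    exact Cardinal.aleph_one_le_continuum
  obtain ⟨f⟩ := h
  exact ⟨f, f.injective⟩

end Pool.Agent.Results.MP_b18d32_an.LuzinAlgebra.Luzin


namespace Pool.Agent.Results.MP_b18d32_an.LuzinAlgebra.Alg

open Filter Topology BoundedContinuousFunction

section
variable {Ω M : Type} [CStarAlgebra M] (S : Ω → Set ℕ) (P : Ω → M)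

open Classical in
/-- finite combinations of the generators, evaluated at `n` -/
noncomputable def comb (l : Ω →₀ ℂ) (n : ℕ) : M :=
  l.sum (fun α c => if n ∈ S α then c • P α else 0)

open Classical in
lemma comb_eq (l : Ω →₀ ℂ) (F : Finset Ω) (hF : l.support ⊆ F) (n : ℕ) :
    comb S P l n = ∑ α ∈ F, if n ∈ S α then l α • P α else 0 := by
  unfold comb
  rw [Finsupp.sum_of_support_subset l hF]
  intro i _
  simp

lemma comb_add (l m : Ω →₀ ℂ) (n : ℕ) : comb S P (l + m) n = comb S P l n + comb S P m n := by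
  classical
  unfold comb
  rw [Finsupp.sum_add_index']
  · intro a; simp
  · intro a b c
    split_ifs
    · rw [add_smul]
    · simp

lemma comb_smul (c : ℂ) (l : Ω →₀ ℂ) (n : ℕ) : comb S P (c • l) n = c • comb S P l n := by
  classical
  unfold comb
  rw [Finsupp.sum_smul_index' (by intro i; simp), Finsupp.smul_sum]
  refine Finsupp.sum_congr (fun α _ => ?_)
  split_ifs
  · rw [smul_eq_mul, mul_smul]
  · simp

lemma comb_zero (n : ℕ) : comb S P 0 n = 0 := by
  unfold comb; simp

variable {S P}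

lemma uniq (hAD : ∀ α β, α ≠ β → (S α ∩ S β).Finite) (F : Finset Ω) :
    ∀ᶠ n in atTop, ∀ α ∈ F, ∀ β ∈ F, n ∈ S α → n ∈ S β → α = β := by
  rw [Filter.eventually_all_finset]
  intro α hα
  rw [Filter.eventually_all_finset]
  intro β hβ
  by_cases h : α = β
  · exact Eventually.of_forall (fun _ _ _ => h)
  · have := (hAD α β h).compl_mem_cofinite
    rw [Nat.cofinite_eq_atTop] at this
    filter_upwards [this] with n hn h1 h2
    exact absurd ⟨h1, h2⟩ hn

lemma comb_eval {l : Ω →₀ ℂ} {F : Finset Ω} (hF : l.support ⊆ F) {n : ℕ}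
    (hn : ∀ α ∈ F, ∀ β ∈ F, n ∈ S α → n ∈ S β → α = β) {α : Ω} (hα : α ∈ F) (hnα : n ∈ S α) :
    comb S P l n = l α • P α := by
  classical
  rw [comb_eq S P l F hF, Finset.sum_eq_single α]
  · rw [if_pos hnα]
  · intro β hβ hne
    rw [if_neg]
    intro h
    exact hne (hn β hβ α hα h hnα)
  · intro h; exact absurd hα h

lemma comb_eval_zero {l : Ω →₀ ℂ} {F : Finset Ω} (hF : l.support ⊆ F) {n : ℕ}
    (hn : ∀ α ∈ F, n ∉ S α) : comb S P l n = 0 := by
  classical
  rw [comb_eq S P l F hF]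
  apply Finset.sum_eq_zero
  intro α hα
  rw [if_neg (hn α hα)]

lemma comb_mul (hAD : ∀ α β, α ≠ β → (S α ∩ S β).Finite) (hP : ∀ α, P α * P α = P α)
    (l m : Ω →₀ ℂ) : ∀ᶠ n in atTop, comb S P (l * m) n = comb S P l n * comb S P m n := by
  classical
  filter_upwards [uniq hAD (l.support ∪ m.support)] with n hn
  have h1 : l.support ⊆ l.support ∪ m.support := Finset.subset_union_left
  have h2 : m.support ⊆ l.support ∪ m.support := Finset.subset_union_right
  have h3 : (l * m).support ⊆ l.support ∪ m.support := by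
    intro α hα
    rw [Finsupp.mem_support_iff, Finsupp.mul_apply] at hα
    exact h1 (Finsupp.mem_support_iff.2 (left_ne_zero_of_mul hα))
  by_cases h : ∃ α ∈ l.support ∪ m.support, n ∈ S α
  · obtain ⟨α, hα, hnα⟩ := h
    rw [comb_eval h1 hn hα hnα, comb_eval h2 hn hα hnα, comb_eval h3 hn hα hnα, Finsupp.mul_apply,
      smul_mul_smul_comm, hP]
  · push Not at h
    rw [comb_eval_zero h1 h, comb_eval_zero h2 h, comb_eval_zero h3 h, zero_mul]

lemma comb_star (hP : ∀ α, star (P α) = P α) (l : Ω →₀ ℂ) (n : ℕ) :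
    comb S P (l.mapRange star (star_zero ℂ)) n = star (comb S P l n) := by
  classical
  have h : (l.mapRange star (star_zero ℂ)).support ⊆ l.support := Finsupp.support_mapRange
  rw [comb_eq S P _ l.support h, comb_eq S P l l.support subset_rfl, star_sum]
  refine Finset.sum_congr rfl (fun α _ => ?_)
  split_ifs
  · rw [star_smul, hP, Finsupp.mapRange_apply]
  · simp

/-- The approximation property -/
def App (S : Ω → Set ℕ) (P : Ω → M) (a : ℕ → M) : Prop :=
  ∀ ε : ℝ, 0 < ε → ∃ l : Ω →₀ ℂ, ∀ᶠ n in atTop, ‖a n - comb S P l n‖ ≤ ε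

/-- The algebra. -/
noncomputable def alg (hAD : ∀ α β, α ≠ β → (S α ∩ S β).Finite) (hP : ∀ α, P α * P α = P α)
    (hPs : ∀ α, star (P α) = P α) : NonUnitalStarSubalgebra ℂ (ℕ →ᵇ M) where
  carrier := {a | App S P a}
  add_mem' := by
    intro a b ha hb ε hε
    obtain ⟨l, hl⟩ := ha (ε/2) (by positivity)
    obtain ⟨m, hm⟩ := hb (ε/2) (by positivity)
    refine ⟨l + m, ?_⟩
    filter_upwards [hl, hm] with n h1 h2
    rw [comb_add, BoundedContinuousFunction.add_apply, add_sub_add_comm]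
    exact (norm_add_le _ _).trans (by linarith)
  zero_mem' := by
    intro ε hε
    refine ⟨0, Eventually.of_forall (fun n => ?_)⟩
    rw [comb_zero]
    simpa using hε.le
  smul_mem' := by
    intro c a ha ε hε
    obtain ⟨l, hl⟩ := ha (ε/(‖c‖ + 1)) (by positivity)
    refine ⟨c • l, ?_⟩
    filter_upwards [hl] with n h1
    rw [comb_smul, BoundedContinuousFunction.smul_apply, ← smul_sub, norm_smul]
    calc ‖c‖ * ‖a n - comb S P l n‖ ≤ ‖c‖ * (ε/(‖c‖ + 1)) := by gcongr
      _ ≤ (‖c‖ + 1) * (ε/(‖c‖ + 1)) := by gcongr; linarith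
      _ = ε := by field_simp
  mul_mem' := by
    intro a b ha hb ε hε
    set K := ‖a‖ + ‖b‖ + 1 with hK
    have hK1 : 1 ≤ K := by
      have := norm_nonneg a
      have := norm_nonneg b
      linarith
    have hK0 : 0 < K := by linarith
    set δ := min 1 (ε / (2 * K)) with hδ
    have hδ0 : 0 < δ := lt_min one_pos (by positivity)
    have hδ1 : δ ≤ 1 := min_le_left _ _
    have hδ2 : δ * (2 * K) ≤ ε := by
      rw [← le_div_iff₀ (by positivity)]
      exact min_le_right _ _
    obtain ⟨l, hl⟩ := ha δ hδ0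
    obtain ⟨m, hm⟩ := hb δ hδ0
    refine ⟨l * m, ?_⟩
    filter_upwards [hl, hm, comb_mul hAD hP l m] with n h1 h2 h3
    rw [h3, BoundedContinuousFunction.mul_apply]
    have h4 : a n * b n - comb S P l n * comb S P m n =
        a n * (b n - comb S P m n) + (a n - comb S P l n) * comb S P m n := by noncomm_ring
    rw [h4]
    have h5 : ‖a n‖ ≤ K := (a.norm_coe_le_norm n).trans (by linarith [norm_nonneg b])
    have h6 : ‖comb S P m n‖ ≤ K := by
      have : comb S P m n = b n - (b n - comb S P m n) := by abel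
      rw [this]
      refine (norm_sub_le _ _).trans ?_
      have := b.norm_coe_le_norm n
      have := norm_nonneg a
      linarith
    calc _ ≤ ‖a n‖ * ‖b n - comb S P m n‖ + ‖a n - comb S P l n‖ * ‖comb S P m n‖ :=
          (norm_add_le _ _).trans (add_le_add (norm_mul_le _ _) (norm_mul_le _ _))
      _ ≤ K * δ + δ * K := by gcongr
      _ ≤ ε := by linarith
  star_mem' := by
    intro a ha ε hε
    obtain ⟨l, hl⟩ := ha ε hε
    refine ⟨l.mapRange star (star_zero ℂ), ?_⟩
    filter_upwards [hl] with n h1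
    rw [comb_star hPs]
    have : (star a) n = star (a n) := rfl
    rw [this, ← star_sub, norm_star]
    exact h1

lemma alg_closed (hAD : ∀ α β, α ≠ β → (S α ∩ S β).Finite) (hP : ∀ α, P α * P α = P α)
    (hPs : ∀ α, star (P α) = P α) : IsClosed (alg hAD hP hPs : Set (ℕ →ᵇ M)) := by
  apply isClosed_of_closure_subset
  intro a ha ε hε
  rw [Metric.mem_closure_iff] at ha
  obtain ⟨b, hb, hab⟩ := ha (ε/2) (by positivity)
  obtain ⟨l, hl⟩ := (hb : App S P b) (ε/2) (by positivity)
  refine ⟨l, ?_⟩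
  filter_upwards [hl] with n h1
  have h2 : dist (a n) (b n) ≤ dist a b := BoundedContinuousFunction.dist_coe_le_dist n
  rw [dist_eq_norm] at h2
  have h3 : a n - comb S P l n = (a n - b n) + (b n - comb S P l n) := by abel
  rw [h3]
  exact (norm_add_le _ _).trans (by linarith)

/-- eventually constant on `S α` -/
lemma comb_ev (hAD : ∀ α β, α ≠ β → (S α ∩ S β).Finite) (l : Ω →₀ ℂ) (α : Ω) :
    ∀ᶠ n in atTop, n ∈ S α → comb S P l n = l α • P α := by
  classical
  filter_upwards [uniq hAD (insert α l.support)] with n hn h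
  exact comb_eval (Finset.subset_insert _ _) hn (Finset.mem_insert_self _ _) h

lemma app_cauchy (hAD : ∀ α β, α ≠ β → (S α ∩ S β).Finite) {a : ℕ → M} (ha : App S P a) (α : Ω)
    (ε : ℝ) (hε : 0 < ε) : ∃ N, ∀ n ∈ S α, ∀ m ∈ S α, N ≤ n → N ≤ m → ‖a n - a m‖ ≤ ε := by
  obtain ⟨l, hl⟩ := ha (ε/2) (by positivity)
  obtain ⟨N, hN⟩ := (hl.and (comb_ev (P := P) hAD l α)).exists_forall_of_atTop
  refine ⟨N, fun n hn m hm h1 h2 => ?_⟩
  have h3 := hN n h1
  have h4 := hN m h2
  rw [h3.2 hn] at h3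
  rw [h4.2 hm] at h4
  have h5 : a n - a m = (a n - l α • P α) - (a m - l α • P α) := by abel
  rw [h5]
  exact (norm_sub_le _ _).trans (by linarith [h3.1, h4.1])

/-- The filter along `S α` -/
def fl (S : Ω → Set ℕ) (α : Ω) : Filter ℕ := atTop ⊓ 𝓟 (S α)

lemma app_countable (hAD : ∀ α β, α ≠ β → (S α ∩ S β).Finite) {a : ℕ → M} (ha : App S P a) :
    {α | ¬ Tendsto a (fl S α) (𝓝 0)}.Countable := by
  choose l hl using fun k : ℕ => ha (1 / (k + 1 : ℝ)) (by positivity)
  refine (Set.countable_iUnion (fun k => (l k).support.countable_toSet)).mono ?_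
  intro α hα
  by_contra hcon
  apply hα
  simp only [Set.mem_iUnion, not_exists] at hcon
  rw [Metric.tendsto_nhds]
  intro ε hε
  obtain ⟨k, hk⟩ := exists_nat_one_div_lt hε
  have h1 : ∀ᶠ n in atTop, n ∈ S α → dist (a n) 0 < ε := by
    filter_upwards [hl k, comb_ev (P := P) hAD (l k) α] with n h1 h2 hn
    rw [h2 hn] at h1
    have h3 : l k α = 0 := Finsupp.notMem_support_iff.1 (hcon k)
    rw [h3, zero_smul, sub_zero] at h1
    rw [dist_zero_right]
    exact lt_of_le_of_lt h1 hk
  exact (Filter.eventually_inf_principal).2 h1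

lemma fl_neBot (hinf : ∀ α, (S α).Infinite) (α : Ω) : (fl S α).NeBot := by
  unfold fl
  rw [Filter.inf_principal_neBot_iff]
  intro U hU
  obtain ⟨N, hN⟩ := mem_atTop_sets.1 hU
  obtain ⟨n, hn, hn2⟩ := (hinf α).exists_gt N
  exact ⟨n, hN n hn2.le, hn⟩

lemma app_lim (hAD : ∀ α β, α ≠ β → (S α ∩ S β).Finite) (hinf : ∀ α, (S α).Infinite)
    {a : ℕ → M} (ha : App S P a) (α : Ω) :
    ∃ c : ℂ, Tendsto a (fl S α) (𝓝 (c • P α)) := by
  have hne := fl_neBot hinf α
  have hcau : Cauchy (map a (fl S α)) := by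
    rw [Metric.cauchy_iff]
    refine ⟨hne.map a, fun ε hε => ?_⟩
    obtain ⟨N, hN⟩ := app_cauchy hAD ha α (ε/2) (by positivity)
    refine ⟨a '' (Set.Ici N ∩ S α), ?_, ?_⟩
    · apply image_mem_map
      exact inter_mem_inf (Ici_mem_atTop N) (mem_principal_self _)
    · rintro _ ⟨n, ⟨h1, h2⟩, rfl⟩ _ ⟨m, ⟨h3, h4⟩, rfl⟩
      rw [dist_eq_norm]
      exact lt_of_le_of_lt (hN n h2 m h4 h1 h3) (by linarith)
  obtain ⟨L, hL⟩ := cauchy_iff_exists_le_nhds.1 hcau
  have hL' : Tendsto a (fl S α) (𝓝 L) := hL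
  have hcl : IsClosed ((ℂ ∙ P α : Submodule ℂ M) : Set M) := Submodule.closed_of_finiteDimensional _
  have hmem : L ∈ (ℂ ∙ P α : Submodule ℂ M) := by
    have : L ∈ closure ((ℂ ∙ P α : Submodule ℂ M) : Set M) := by
      rw [Metric.mem_closure_iff]
      intro ε hε
      obtain ⟨l, hl⟩ := ha (ε/2) (by positivity)
      refine ⟨l α • P α, Submodule.smul_mem _ _ (Submodule.mem_span_singleton_self _), ?_⟩
      have h1 : ∀ᶠ n in fl S α, dist (a n) (l α • P α) ≤ ε/2 := by
        apply (Filter.eventually_inf_principal).2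
        filter_upwards [hl, comb_ev (P := P) hAD l α] with n h1 h2 hn
        rw [h2 hn] at h1
        rwa [dist_eq_norm]
      have h2 : dist L (l α • P α) ≤ ε/2 :=
        le_of_tendsto (hL'.dist tendsto_const_nhds) h1
      linarith
    rwa [hcl.closure_eq] at this
  obtain ⟨c, rfl⟩ := Submodule.mem_span_singleton.1 hmem
  exact ⟨c, hL'⟩

open Classical in
/-- The generators. -/
noncomputable def gen (S : Ω → Set ℕ) (P : Ω → M) (α : Ω) : ℕ →ᵇ M :=
  BoundedContinuousFunction.ofNormedAddCommGroup (fun n => if n ∈ S α then P α else 0)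
    continuous_of_discreteTopology ‖P α‖ (fun n => by split_ifs <;> simp)

open Classical in
lemma gen_apply (α : Ω) (n : ℕ) : gen S P α n = if n ∈ S α then P α else 0 := rfl

lemma gen_mem (hAD : ∀ α β, α ≠ β → (S α ∩ S β).Finite) (hP : ∀ α, P α * P α = P α)
    (hPs : ∀ α, star (P α) = P α) (α : Ω) : gen S P α ∈ alg hAD hP hPs := by
  intro ε hε
  refine ⟨Finsupp.single α 1, Eventually.of_forall (fun n => ?_)⟩
  have : comb S P (Finsupp.single α 1) n = gen S P α n := by
    unfold comb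
    rw [Finsupp.sum_single_index (by simp), gen_apply, one_smul]
  rw [this, sub_self, norm_zero]
  exact hε.le

/-- Matrix `x` at position `n`. -/
noncomputable def pt (n : ℕ) (x : M) : ℕ →ᵇ M :=
  BoundedContinuousFunction.ofNormedAddCommGroup (fun m => if m = n then x else 0)
    continuous_of_discreteTopology ‖x‖ (fun n => by split_ifs <;> simp)

lemma pt_apply (n : ℕ) (x : M) (m : ℕ) : pt n x m = if m = n then x else 0 := rfl

lemma pt_norm (n : ℕ) (x : M) : ‖pt n x‖ ≤ ‖x‖ :=
  BoundedContinuousFunction.norm_ofNormedAddCommGroup_le _ (norm_nonneg _) _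

lemma pt_mem (hAD : ∀ α β, α ≠ β → (S α ∩ S β).Finite) (hP : ∀ α, P α * P α = P α)
    (hPs : ∀ α, star (P α) = P α) (n : ℕ) (x : M) : pt n x ∈ alg hAD hP hPs := by
  intro ε hε
  refine ⟨0, ?_⟩
  filter_upwards [eventually_gt_atTop n] with m hm
  rw [comb_zero, pt_apply, if_neg (by omega)]
  simpa using hε.le

end

end Pool.Agent.Results.MP_b18d32_an.LuzinAlgebra.Alg


namespace Pool.Agent.Results.MP_b18d32_an.LuzinAlgebra.Alg

open Filter Topology BoundedContinuousFunction Pool.Agent.Results.MP_b18d32_an.LuzinAlgebra.Her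

section
variable {Ω M : Type} [CStarAlgebra M] {S : Ω → Set ℕ} {P : Ω → M}

/-- the diagonal restriction -/
noncomputable def diagL : (ℕ × ℕ →ᵇ M) →L[ℂ] (ℕ →ᵇ M) :=
  LinearMap.mkContinuous
    { toFun := fun F => F.compContinuous ⟨fun n => (n, n), continuous_of_discreteTopology⟩
      map_add' := fun _ _ => rfl
      map_smul' := fun _ _ => rfl } 1
    (fun F => by
      rw [one_mul]
      exact BoundedContinuousFunction.norm_le (norm_nonneg _) |>.2 (fun n => F.norm_coe_le_norm _))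

lemma diagL_apply (F : ℕ × ℕ →ᵇ M) (n : ℕ) : diagL F n = F (n, n) := rfl

noncomputable def fstL : (ℕ →ᵇ M) →L[ℂ] (ℕ × ℕ →ᵇ M) :=
  LinearMap.mkContinuous
    { toFun := fun F => F.compContinuous ⟨fun n => n.1, continuous_of_discreteTopology⟩
      map_add' := fun _ _ => rfl
      map_smul' := fun _ _ => rfl } 1
    (fun F => by
      rw [one_mul]
      exact BoundedContinuousFunction.norm_le (norm_nonneg _) |>.2 (fun n => F.norm_coe_le_norm _))

lemma fstL_apply (F : ℕ →ᵇ M) (n : ℕ × ℕ) : fstL F n = F n.1 := rfl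

noncomputable def sndL : (ℕ →ᵇ M) →L[ℂ] (ℕ × ℕ →ᵇ M) :=
  LinearMap.mkContinuous
    { toFun := fun F => F.compContinuous ⟨fun n => n.2, continuous_of_discreteTopology⟩
      map_add' := fun _ _ => rfl
      map_smul' := fun _ _ => rfl } 1
    (fun F => by
      rw [one_mul]
      exact BoundedContinuousFunction.norm_le (norm_nonneg _) |>.2 (fun n => F.norm_coe_le_norm _))

lemma sndL_apply (F : ℕ →ᵇ M) (n : ℕ × ℕ) : sndL F n = F n.2 := rfl

variable (hAD : ∀ α β, α ≠ β → (S α ∩ S β).Finite) (hP : ∀ α, P α * P α = P α)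
    (hPs : ∀ α, star (P α) = P α)

/-- first condition on `F` -/
def Q1 (S : Ω → Set ℕ) (F : ℕ × ℕ →ᵇ M) : Prop :=
  ∀ α, ∀ ε : ℝ, 0 < ε → ∃ N, ∀ n ∈ S α, ∀ m ∈ S α, N ≤ n → N ≤ m → ‖F (n, n) - F (n, m)‖ ≤ ε

def Q2 (S : Ω → Set ℕ) (F : ℕ × ℕ →ᵇ M) : Prop :=
  ∀ n, {α | ¬ Tendsto (fun m => F (n, m)) (fl S α) (𝓝 0)}.Countable

/-- the test module -/
noncomputable def XX : Submodule ℂ (ℕ × ℕ →ᵇ M) where
  carrier := {F | diagL F ∈ alg hAD hP hPs ∧ Q1 S F ∧ Q2 S F}
  add_mem' := by
    rintro F G ⟨h1, h2, h3⟩ ⟨k1, k2, k3⟩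
    refine ⟨?_, ?_, ?_⟩
    · rw [map_add]; exact add_mem h1 k1
    · intro α ε hε
      obtain ⟨N, hN⟩ := h2 α (ε/2) (by positivity)
      obtain ⟨N', hN'⟩ := k2 α (ε/2) (by positivity)
      refine ⟨max N N', fun n hn m hm h4 h5 => ?_⟩
      have e1 := hN n hn m hm (le_trans (le_max_left _ _) h4) (le_trans (le_max_left _ _) h5)
      have e2 := hN' n hn m hm (le_trans (le_max_right _ _) h4) (le_trans (le_max_right _ _) h5)
      rw [BoundedContinuousFunction.add_apply, BoundedContinuousFunction.add_apply,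
        add_sub_add_comm]
      exact (norm_add_le _ _).trans (by linarith)
    · intro n
      refine ((h3 n).union (k3 n)).mono ?_
      intro α hα
      by_contra hcon
      simp only [Set.mem_union, not_or] at hcon
      apply hα
      have e1 := not_not.1 hcon.1
      have e2 := not_not.1 hcon.2
      have := e1.add e2
      rw [add_zero] at this
      exact this
  zero_mem' := by
    refine ⟨?_, ?_, ?_⟩
    · rw [map_zero]; exact zero_mem _
    · intro α ε hε
      exact ⟨0, fun n _ m _ _ _ => by simpa using hε.le⟩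
    · intro n
      refine Set.countable_empty.mono ?_
      intro α hα
      exact hα tendsto_const_nhds
  smul_mem' := by
    rintro c F ⟨h1, h2, h3⟩
    refine ⟨?_, ?_, ?_⟩
    · rw [map_smul]; exact SMulMemClass.smul_mem c h1
    · intro α ε hε
      obtain ⟨N, hN⟩ := h2 α (ε/(‖c‖ + 1)) (by positivity)
      refine ⟨N, fun n hn m hm h4 h5 => ?_⟩
      have e1 := hN n hn m hm h4 h5
      rw [BoundedContinuousFunction.smul_apply, BoundedContinuousFunction.smul_apply, ← smul_sub,
        norm_smul]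
      calc ‖c‖ * ‖F (n, n) - F (n, m)‖ ≤ ‖c‖ * (ε/(‖c‖ + 1)) := by gcongr
        _ ≤ (‖c‖ + 1) * (ε/(‖c‖ + 1)) := by gcongr; linarith
        _ = ε := by field_simp
    · intro n
      refine (h3 n).mono ?_
      intro α hα hcon
      apply hα
      have := (hcon : Tendsto (fun m => F (n, m)) (fl S α) (𝓝 0)).const_smul c
      rw [smul_zero] at this
      exact this

lemma XX_closed : IsClosed (XX hAD hP hPs : Set (ℕ × ℕ →ᵇ M)) := by
  apply isClosed_of_closure_subset
  intro F hF
  have hF' := mem_closure_iff_seq_limit.1 hF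
  obtain ⟨G, hG, hlim⟩ := hF'
  have hd : ∀ ε : ℝ, 0 < ε → ∃ k, ‖F - G k‖ ≤ ε := by
    intro ε hε
    obtain ⟨k, hk⟩ := ((Metric.tendsto_atTop.1 hlim) ε hε)
    refine ⟨k, ?_⟩
    have := hk k le_rfl
    rw [dist_comm, dist_eq_norm] at this
    exact this.le
  refine ⟨?_, ?_, ?_⟩
  · exact (alg_closed hAD hP hPs).mem_of_tendsto ((diagL.continuous.tendsto F).comp hlim)
      (Eventually.of_forall (fun k => (hG k).1))
  · intro α ε hε
    obtain ⟨k, hk⟩ := hd (ε/3) (by positivity)
    obtain ⟨N, hN⟩ := (hG k).2.1 α (ε/3) (by positivity)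
    refine ⟨N, fun n hn m hm h4 h5 => ?_⟩
    have e1 := hN n hn m hm h4 h5
    have e2 : ‖F (n, n) - G k (n, n)‖ ≤ ε/3 := ((F - G k).norm_coe_le_norm (n, n)).trans hk
    have e3 : ‖F (n, m) - G k (n, m)‖ ≤ ε/3 := ((F - G k).norm_coe_le_norm (n, m)).trans hk
    have e4 : F (n, n) - F (n, m) = (F (n, n) - G k (n, n)) + (G k (n, n) - G k (n, m)) -
        (F (n, m) - G k (n, m)) := by abel
    rw [e4]
    refine (norm_sub_le _ _).trans ((add_le_add (norm_add_le _ _) le_rfl).trans (by linarith))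
  · intro n
    refine (Set.countable_iUnion (fun k => (hG k).2.2 n)).mono ?_
    intro α hα
    by_contra hcon
    simp only [Set.mem_iUnion, not_exists] at hcon
    apply hα
    rw [Metric.tendsto_nhds]
    intro ε hε
    obtain ⟨k, hk⟩ := hd (ε/3) (by positivity)
    have h1 : Tendsto (fun m => G k (n, m)) (fl S α) (𝓝 0) := not_not.1 (hcon k)
    rw [Metric.tendsto_nhds] at h1
    filter_upwards [h1 (ε/3) (by positivity)] with m hm
    rw [dist_zero_right] at hm ⊢
    have e3 : ‖F (n, m) - G k (n, m)‖ ≤ ε/3 := ((F - G k).norm_coe_le_norm (n, m)).trans hk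
    have e4 : F (n, m) = (F (n, m) - G k (n, m)) + G k (n, m) := by abel
    rw [e4]
    exact lt_of_le_of_lt (norm_add_le _ _) (by linarith)

lemma XX_act (a : ℕ →ᵇ M) (ha : a ∈ alg hAD hP hPs) (F : ℕ × ℕ →ᵇ M) (hF : F ∈ XX hAD hP hPs) :
    fstL a * F ∈ XX hAD hP hPs := by
  obtain ⟨h1, h2, h3⟩ := hF
  refine ⟨?_, ?_, ?_⟩
  · have : diagL (fstL a * F) = a * diagL F := rfl
    rw [this]
    exact mul_mem ha h1
  · intro α ε hε
    obtain ⟨N, hN⟩ := h2 α (ε/(‖a‖ + 1)) (by positivity)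
    refine ⟨N, fun n hn m hm h4 h5 => ?_⟩
    have e1 := hN n hn m hm h4 h5
    have e2 : (fstL a * F) (n, n) - (fstL a * F) (n, m) = a n * (F (n, n) - F (n, m)) := by
      rw [BoundedContinuousFunction.mul_apply, BoundedContinuousFunction.mul_apply, fstL_apply,
        fstL_apply, mul_sub]
    rw [e2]
    have e3 := a.norm_coe_le_norm n
    calc ‖a n * (F (n, n) - F (n, m))‖ ≤ ‖a n‖ * ‖F (n, n) - F (n, m)‖ := norm_mul_le _ _
      _ ≤ (‖a‖ + 1) * (ε/(‖a‖ + 1)) := by gcongr; linarith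
      _ = ε := by field_simp
  · intro n
    refine (h3 n).mono ?_
    intro α hα hcon
    apply hα
    have := (hcon : Tendsto (fun m => F (n, m)) (fl S α) (𝓝 0)).const_mul (a n)
    rw [mul_zero] at this
    exact this

lemma XX_snd (a : ℕ →ᵇ M) (ha : a ∈ alg hAD hP hPs) : sndL a ∈ XX hAD hP hPs := by
  refine ⟨ha, ?_, ?_⟩
  · intro α ε hε
    obtain ⟨N, hN⟩ := app_cauchy hAD (ha : App S P a) α ε hε
    exact ⟨N, fun n hn m hm h4 h5 => hN n hn m hm h4 h5⟩
  · intro n
    exact app_countable hAD (ha : App S P a)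

/-- the algebra as a type -/
abbrev AA : Type := alg hAD hP hPs

noncomputable instance : NonUnitalCStarAlgebra (AA hAD hP hPs) :=
  NonUnitalStarSubalgebra.nonUnitalCStarAlgebra (alg hAD hP hPs)
    (h_closed := alg_closed hAD hP hPs)

/-- The test module. -/
noncomputable def modX : LeftBanachModule (AA hAD hP hPs) (XX hAD hP hPs) where
  act := fun a F => ⟨fstL (a : ℕ →ᵇ M) * F, XX_act hAD hP hPs a a.2 F F.2⟩
  add_act := fun a b x => by
    apply Subtype.ext
    show fstL ((a : ℕ →ᵇ M) + (b : ℕ →ᵇ M)) * (x : ℕ × ℕ →ᵇ M) = _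
    rw [map_add, add_mul]; rfl
  smul_act := fun c a x => by
    apply Subtype.ext
    show fstL (c • (a : ℕ →ᵇ M)) * (x : ℕ × ℕ →ᵇ M) = _
    rw [map_smul, smul_mul_assoc]; rfl
  act_add := fun a x y => by
    apply Subtype.ext
    show fstL (a : ℕ →ᵇ M) * ((x : ℕ × ℕ →ᵇ M) + (y : ℕ × ℕ →ᵇ M)) = _
    rw [mul_add]; rfl
  act_smul := fun c a x => by
    apply Subtype.ext
    show fstL (a : ℕ →ᵇ M) * (c • (x : ℕ × ℕ →ᵇ M)) = _
    rw [mul_smul_comm]; rfl
  mul_act := fun a b x => by
    apply Subtype.ext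
    show fstL ((a : ℕ →ᵇ M) * (b : ℕ →ᵇ M)) * (x : ℕ × ℕ →ᵇ M) =
      fstL (a : ℕ →ᵇ M) * (fstL (b : ℕ →ᵇ M) * (x : ℕ × ℕ →ᵇ M))
    rw [← mul_assoc]; rfl
  bounded := ⟨1, fun a x => by
    rw [one_mul]
    show ‖fstL (a : ℕ →ᵇ M) * (x : ℕ × ℕ →ᵇ M)‖ ≤ ‖(a : ℕ →ᵇ M)‖ * ‖(x : ℕ × ℕ →ᵇ M)‖
    refine (norm_mul_le _ _).trans ?_
    gcongr
    exact BoundedContinuousFunction.norm_le (norm_nonneg _) |>.2
      (fun n => (a : ℕ →ᵇ M).norm_coe_le_norm _)⟩

/-- The algebra as a module over itself. -/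
noncomputable def modA : LeftBanachModule (AA hAD hP hPs) (AA hAD hP hPs) where
  act := fun a x => a * x
  add_act := fun a b x => add_mul a b x
  smul_act := fun c a x => smul_mul_assoc c a x
  act_add := fun a x y => mul_add a x y
  act_smul := fun c a x => mul_smul_comm c a x
  mul_act := fun a b x => mul_assoc a b x
  bounded := ⟨1, fun a x => by rw [one_mul]; exact norm_mul_le a x⟩

theorem not_hereditary (hinf : ∀ α, (S α).Infinite) (hP1 : ∀ α, ‖P α‖ = 1)
    [TopologicalSpace.SeparableSpace M]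
    (hunc : ¬ (Set.univ : Set Ω).Countable) : ¬ IsHereditary (AA hAD hP hPs) := by
  intro hher
  have hproj := hher ⊤ (fun _ _ _ => trivial) isClosed_univ
  have hcX : CompleteSpace (XX hAD hP hPs) := (XX_closed hAD hP hPs).completeSpace_coe
  let σ : XX hAD hP hPs →L[ℂ] AA hAD hP hPs :=
    (diagL.comp (XX hAD hP hPs).subtypeL).codRestrict
      (alg hAD hP hPs).toNonUnitalSubalgebra.toSubmodule (fun F => F.2.1)
  let ρ : AA hAD hP hPs →L[ℂ] XX hAD hP hPs :=
    (sndL.comp ((alg hAD hP hPs).toNonUnitalSubalgebra.toSubmodule).subtypeL).codRestrict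
      (XX hAD hP hPs) (fun a => XX_snd hAD hP hPs a a.2)
  let φ : (⊤ : Submodule ℂ (AA hAD hP hPs)) →L[ℂ] AA hAD hP hPs := Submodule.subtypeL ⊤
  obtain ⟨ψ, hψ1, hψ2⟩ := hproj (XX hAD hP hPs) (AA hAD hP hPs) (modX hAD hP hPs)
    (modA hAD hP hPs) σ (fun a x => rfl) ⟨ρ, fun y => rfl⟩ φ (fun a x => rfl)
  let e : ℕ → M → (⊤ : Submodule ℂ (AA hAD hP hPs)) :=
    fun n x => ⟨⟨pt n x, pt_mem hAD hP hPs n x⟩, trivial⟩
  let g : Ω → (⊤ : Submodule ℂ (AA hAD hP hPs)) :=
    fun α => ⟨⟨gen S P α, gen_mem hAD hP hPs α⟩, trivial⟩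
  let Ψ : (⊤ : Submodule ℂ (AA hAD hP hPs)) → (ℕ × ℕ →ᵇ M) := fun a => (ψ a : ℕ × ℕ →ᵇ M)
  have hΨm : ∀ a, Ψ a ∈ XX hAD hP hPs := fun a => (ψ a).2
  have hΨn : ∀ (a b : (⊤ : Submodule ℂ (AA hAD hP hPs))) (p : ℕ × ℕ),
      ‖Ψ a p - Ψ b p‖ ≤ ‖ψ‖ * ‖a - b‖ := by
    intro a b p
    have h1 : Ψ a p - Ψ b p = ((ψ (a - b) : XX hAD hP hPs) : ℕ × ℕ →ᵇ M) p := by
      rw [map_sub]; rfl
    rw [h1]
    exact (BoundedContinuousFunction.norm_coe_le_norm _ p).trans (ψ.le_opNorm _)
  have hdiag : ∀ a (n : ℕ), Ψ a (n, n) = (((a : AA hAD hP hPs)) : ℕ →ᵇ M) n := by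
    intro a n
    have h1 : σ (ψ a) = (a : AA hAD hP hPs) := hψ2 a
    have h2 : ((σ (ψ a) : AA hAD hP hPs) : ℕ →ᵇ M) n = Ψ a (n, n) := rfl
    rw [← h2, h1]
  have hkey : ∀ α n m, n ∈ S α → Ψ (e n (P α)) (n, m) = Ψ (g α) (n, m) := by
    intro α n m hn
    have h1 := hψ1 (e n 1 : AA hAD hP hPs) (g α)
    have h2 : (idealModule (⊤ : Submodule ℂ (AA hAD hP hPs)) (fun _ _ _ => trivial)).act
        (e n 1 : AA hAD hP hPs) (g α) = e n (P α) := by
      apply Subtype.ext
      apply Subtype.ext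
      ext k
      show pt n (1 : M) k * gen S P α k = pt n (P α) k
      rw [pt_apply, gen_apply, pt_apply]
      by_cases hk : k = n
      · subst hk; simp [hn]
      · simp [hk]
    rw [h2] at h1
    have h3 : Ψ (e n (P α)) (n, m) = pt n (1 : M) n * Ψ (g α) (n, m) := by
      show ((ψ (e n (P α)) : XX hAD hP hPs) : ℕ × ℕ →ᵇ M) (n, m) = _
      rw [h1]; rfl
    rw [h3, pt_apply, if_pos rfl, one_mul]
  have hZ : (⋃ n : ℕ, ⋃ k : ℕ, {β | ¬ Tendsto
      (fun m => Ψ (e n (TopologicalSpace.denseSeq M k)) (n, m)) (fl S β) (𝓝 0)}).Countable :=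
    Set.countable_iUnion (fun n => Set.countable_iUnion (fun k => (hΨm _).2.2 n))
  obtain ⟨α, hα⟩ : ∃ α, α ∉ (⋃ n : ℕ, ⋃ k : ℕ, {β | ¬ Tendsto
      (fun m => Ψ (e n (TopologicalSpace.denseSeq M k)) (n, m)) (fl S β) (𝓝 0)}) := by
    by_contra hcon
    push Not at hcon
    exact hunc (hZ.mono (fun x _ => hcon x))
  simp only [Set.mem_iUnion, not_exists, Set.mem_ofPred_eq, not_not] at hα
  have hlim : ∀ n x, Tendsto (fun m => Ψ (e n x) (n, m)) (fl S α) (𝓝 0) := by
    intro n x
    rw [Metric.tendsto_nhds]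
    intro ε hε
    obtain ⟨k, hk⟩ := (TopologicalSpace.denseRange_denseSeq M).exists_dist_lt x
      (show (0:ℝ) < ε / (2 * (‖ψ‖ + 1)) by positivity)
    have h1 := hα n k
    rw [Metric.tendsto_nhds] at h1
    filter_upwards [h1 (ε/2) (by positivity)] with m hm
    rw [dist_zero_right] at hm ⊢
    have h2 := hΨn (e n x) (e n (TopologicalSpace.denseSeq M k)) (n, m)
    have h3 : ‖e n x - e n (TopologicalSpace.denseSeq M k)‖ ≤ ‖x - TopologicalSpace.denseSeq M k‖ := by
      have h4 : ‖e n x - e n (TopologicalSpace.denseSeq M k)‖ =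
          ‖pt n x - pt n (TopologicalSpace.denseSeq M k)‖ := rfl
      have h5 : pt n x - pt n (TopologicalSpace.denseSeq M k) =
          pt n (x - TopologicalSpace.denseSeq M k) := by
        ext j
        rw [BoundedContinuousFunction.sub_apply, pt_apply, pt_apply, pt_apply]
        split_ifs <;> simp
      rw [h4, h5]
      exact pt_norm _ _
    rw [dist_eq_norm] at hk
    have h6 : ‖ψ‖ * ‖e n x - e n (TopologicalSpace.denseSeq M k)‖ ≤ ε / 2 := by
      calc _ ≤ (‖ψ‖ + 1) * (ε / (2 * (‖ψ‖ + 1))) := by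
            apply mul_le_mul (by linarith) (h3.trans hk.le) (norm_nonneg _)
            positivity
        _ = ε / 2 := by field_simp
    have h7 : Ψ (e n x) (n, m) = (Ψ (e n x) (n, m) -
        Ψ (e n (TopologicalSpace.denseSeq M k)) (n, m)) +
        Ψ (e n (TopologicalSpace.denseSeq M k)) (n, m) := by abel
    rw [h7]
    exact lt_of_le_of_lt (norm_add_le _ _) (by linarith)
  obtain ⟨N, hN⟩ := (hΨm (g α)).2.1 α (1/2) (by norm_num)
  obtain ⟨n, hn, hnN⟩ := (hinf α).exists_gt N
  have hne := fl_neBot hinf α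
  have h1 : ∀ᶠ m in fl S α, ‖Ψ (g α) (n, m)‖ < 1/2 := by
    have := hlim n (P α)
    rw [Metric.tendsto_nhds] at this
    filter_upwards [this (1/2) (by norm_num)] with m hm
    rw [dist_zero_right] at hm
    rwa [hkey α n m hn] at hm
  have h2 : ∀ᶠ m in fl S α, m ∈ S α ∧ N ≤ m := by
    apply (Filter.eventually_inf_principal).2
    filter_upwards [eventually_ge_atTop N] with m hm hS
    exact ⟨hS, hm⟩
  obtain ⟨m, hm1, hm2, hm3⟩ := (h1.and h2).exists
  have h3 := hN n hn m hm2 hnN.le hm3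
  have h4 : Ψ (g α) (n, n) = P α := by
    rw [hdiag]
    show gen S P α n = P α
    rw [gen_apply, if_pos hn]
  have h5 : ‖Ψ (g α) (n, n)‖ ≤ ‖Ψ (g α) (n, n) - Ψ (g α) (n, m)‖ + ‖Ψ (g α) (n, m)‖ := by
    have : Ψ (g α) (n, n) = (Ψ (g α) (n, n) - Ψ (g α) (n, m)) + Ψ (g α) (n, m) := by abel
    conv_lhs => rw [this]
    exact norm_add_le _ _
  rw [h4, hP1] at h5
  rw [h4] at h3
  linarith

end

end Pool.Agent.Results.MP_b18d32_an.LuzinAlgebra.Alg


namespace Pool.Agent.Results.MP_b18d32_an.LuzinAlgebra.Alg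

open Filter Topology BoundedContinuousFunction Pool.Agent.Results.MP_b18d32_an.LuzinAlgebra.Her TopologicalSpace

section
variable {Ω M : Type} [CStarAlgebra M] {S : Ω → Set ℕ} {P : Ω → M}

/-- condensation points -/
lemma condense [SecondCountableTopology M] (T : Set Ω) (hT : ¬ T.Countable) :
    ∃ α ∈ T, ∃ β ∈ T, α ≠ β ∧ (∀ U ∈ 𝓝 (P α), ¬ {γ | γ ∈ T ∧ P γ ∈ U}.Countable) ∧
      (∀ U ∈ 𝓝 (P β), ¬ {γ | γ ∈ T ∧ P γ ∈ U}.Countable) := by
  let bad : Set Ω := {α | α ∈ T ∧ ∃ U ∈ 𝓝 (P α), {γ | γ ∈ T ∧ P γ ∈ U}.Countable}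
  have hbad : bad.Countable := by
    let BB : Set (Set M) := {V | V ∈ countableBasis M ∧ {γ | γ ∈ T ∧ P γ ∈ V}.Countable}
    have hBB : BB.Countable := (countable_countableBasis M).mono (fun V hV => hV.1)
    refine (hBB.biUnion (t := fun V _ => {γ | γ ∈ T ∧ P γ ∈ V}) (fun V hV => hV.2)).mono ?_
    rintro α ⟨hα, U, hU, hUc⟩
    obtain ⟨V, hV, hαV, hVU⟩ := (isBasis_countableBasis M).mem_nhds_iff.1 hU
    simp only [Set.mem_iUnion]
    refine ⟨V, ⟨hV, hUc.mono ?_⟩, hα, hαV⟩
    rintro γ ⟨h1, h2⟩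
    exact ⟨h1, hVU h2⟩
  have hunc : ¬ (T \ bad).Countable := by
    intro h
    apply hT
    refine (h.union hbad).mono ?_
    intro x hx
    by_cases hb : x ∈ bad
    · exact Or.inr hb
    · exact Or.inl ⟨hx, hb⟩
  have hinf : (T \ bad).Infinite := fun h => hunc h.countable
  obtain ⟨α, hα, β, hβ, hne⟩ := hinf.nontrivial
  refine ⟨α, hα.1, β, hβ.1, hne, fun U hU hc => hα.2 ⟨hα.1, U, hU, hc⟩,
    fun U hU hc => hβ.2 ⟨hβ.1, U, hU, hc⟩⟩

lemma comm_est (p q x y : M) (ε : ℝ) (hε : 0 ≤ ε) (hε1 : ε ≤ 1) (hp : ‖p‖ = 1) (hq : ‖q‖ = 1)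
    (hx : ‖x - p‖ ≤ ε) (hy : ‖y - q‖ ≤ ε) (hxy : x * y = y * x) :
    ‖p * q - q * p‖ ≤ 6 * ε := by
  have hxn : ‖x‖ ≤ 1 + ε := by
    have : x = p + (x - p) := by abel
    rw [this]
    exact (norm_add_le _ _).trans (by linarith)
  have hyn : ‖y‖ ≤ 1 + ε := by
    have : y = q + (y - q) := by abel
    rw [this]
    exact (norm_add_le _ _).trans (by linarith)
  have h1 : p * q - q * p = (y * (x - p) + (y - q) * p) - ((x - p) * q + x * (y - q)) := by
    have : (y * (x - p) + (y - q) * p) - ((x - p) * q + x * (y - q)) =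
        p * q - q * p + (y * x - x * y) := by noncomm_ring
    rw [this, hxy, sub_self, add_zero]
  rw [h1]
  have e1 : ‖y * (x - p)‖ ≤ (1 + ε) * ε := (norm_mul_le _ _).trans (by gcongr)
  have e2 : ‖(y - q) * p‖ ≤ ε * 1 := (norm_mul_le _ _).trans (by rw [hp]; gcongr)
  have e3 : ‖(x - p) * q‖ ≤ ε * 1 := (norm_mul_le _ _).trans (by rw [hq]; gcongr)
  have e4 : ‖x * (y - q)‖ ≤ (1 + ε) * ε := (norm_mul_le _ _).trans (by gcongr)
  calc _ ≤ (‖y * (x - p)‖ + ‖(y - q) * p‖) + (‖(x - p) * q‖ + ‖x * (y - q)‖) :=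
        (norm_sub_le _ _).trans (add_le_add (norm_add_le _ _) (norm_add_le _ _))
    _ ≤ ((1 + ε) * ε + ε * 1) + (ε * 1 + (1 + ε) * ε) := by gcongr
    _ ≤ 6 * ε := by nlinarith

variable (hAD : ∀ α β, α ≠ β → (S α ∩ S β).Finite) (hP : ∀ α, P α * P α = P α)
    (hPs : ∀ α, star (P α) = P α)

lemma approx (a : ℕ →ᵇ M) (ha : a ∈ alg hAD hP hPs) (T : Set Ω)
    (hT : ∀ α, α ∉ T → Tendsto a (fl S α) (𝓝 0)) (ε : ℝ) (hε : 0 < ε) :
    ∃ y ∈ Submodule.span ℂ ((gen S P '' T) ∪ ⋃ n : ℕ, Set.range (fun x : M => pt n x)),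
      ‖a - y‖ ≤ ε := by
  classical
  obtain ⟨l, hl⟩ := (ha : App S P a) ε hε
  let y0 : ℕ →ᵇ M := ∑ α ∈ l.support.filter (· ∈ T), l α • gen S P α
  have hy0 : ∀ n, y0 n = ∑ α ∈ l.support.filter (· ∈ T), if n ∈ S α then l α • P α else 0 := by
    intro n
    simp only [y0]
    rw [BoundedContinuousFunction.sum_apply]
    refine Finset.sum_congr rfl (fun α _ => ?_)
    rw [BoundedContinuousFunction.smul_apply, gen_apply]
    split_ifs <;> simp
  have hev : ∀ᶠ n in atTop, ∀ α ∈ l.support, α ∉ T → n ∈ S α → ‖a n‖ ≤ ε := by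
    rw [Filter.eventually_all_finset]
    intro α _
    by_cases hα : α ∈ T
    · exact Eventually.of_forall (fun _ h => absurd hα h)
    · have h1 := hT α hα
      rw [Metric.tendsto_nhds] at h1
      have h2 := (Filter.eventually_inf_principal).1 (h1 ε hε)
      filter_upwards [h2] with n hn _ hS
      have := hn hS
      rw [dist_zero_right] at this
      exact this.le
  obtain ⟨N, hN⟩ := ((hl.and hev).and (uniq hAD l.support)).exists_forall_of_atTop
  have hbig : ∀ n ≥ N, ‖a n - y0 n‖ ≤ ε := by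
    intro n hn
    obtain ⟨⟨h1, h2⟩, h3⟩ := hN n hn
    by_cases h : ∃ α ∈ l.support, n ∈ S α
    · obtain ⟨α, hα, hnα⟩ := h
      by_cases hαT : α ∈ T
      · have e1 : y0 n = l α • P α := by
          rw [hy0, Finset.sum_eq_single α]
          · rw [if_pos hnα]
          · intro β hβ hne
            rw [if_neg]
            intro hnβ
            exact hne (h3 β (Finset.mem_filter.1 hβ).1 α hα hnβ hnα)
          · intro h; exact absurd (Finset.mem_filter.2 ⟨hα, hαT⟩) h
        rw [comb_eval subset_rfl h3 hα hnα] at h1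
        rw [e1]; exact h1
      · have e1 : y0 n = 0 := by
          rw [hy0]
          apply Finset.sum_eq_zero
          intro β hβ
          rw [if_neg]
          intro hnβ
          have := h3 β (Finset.mem_filter.1 hβ).1 α hα hnβ hnα
          subst this
          exact hαT (Finset.mem_filter.1 hβ).2
        rw [e1, sub_zero]
        exact h2 α hα hαT hnα
    · push Not at h
      have e1 : y0 n = 0 := by
        rw [hy0]
        apply Finset.sum_eq_zero
        intro β hβ
        rw [if_neg (h β (Finset.mem_filter.1 hβ).1)]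
      rw [comb_eval_zero subset_rfl h] at h1
      rw [e1]; exact h1
  let y1 : ℕ →ᵇ M := ∑ n ∈ Finset.range N, pt n (a n - y0 n)
  have hy1 : ∀ m, y1 m = if m < N then a m - y0 m else 0 := by
    intro m
    simp only [y1]
    rw [BoundedContinuousFunction.sum_apply]
    simp only [pt_apply]
    rw [Finset.sum_ite_eq]
    simp only [Finset.mem_range]
  refine ⟨y0 + y1, ?_, ?_⟩
  · apply Submodule.add_mem
    · apply Submodule.sum_mem
      intro α hα
      apply Submodule.smul_mem
      apply Submodule.subset_span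
      exact Or.inl ⟨α, (Finset.mem_filter.1 hα).2, rfl⟩
    · apply Submodule.sum_mem
      intro n _
      apply Submodule.subset_span
      refine Or.inr ?_
      simp only [Set.mem_iUnion]
      exact ⟨n, _, rfl⟩
  · rw [BoundedContinuousFunction.norm_le hε.le]
    intro m
    have : (a - (y0 + y1)) m = a m - y0 m - y1 m := by
      rw [BoundedContinuousFunction.sub_apply, BoundedContinuousFunction.add_apply]; abel
    rw [this, hy1]
    by_cases hm : m < N
    · rw [if_pos hm, sub_self, norm_zero]; exact hε.le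
    · rw [if_neg hm, sub_zero]; exact hbig m (by omega)

theorem comm_separable [SecondCountableTopology M] (hinf : ∀ α, (S α).Infinite)
    (hP1 : ∀ α, ‖P α‖ = 1)
    (hnc : ∀ α β, α ≠ β → P α * P β ≠ P β * P α)
    (hLuz : ∀ T₁ T₂ : Set Ω, ¬ T₁.Countable → ¬ T₂.Countable → ∀ k : ℕ,
      ∃ α ∈ T₁, ∃ β ∈ T₂, ∃ n, k ≤ n ∧ n ∈ S α ∧ n ∈ S β)
    (B : NonUnitalStarSubalgebra ℂ (AA hAD hP hPs))
    (hB : ∀ x ∈ B, ∀ y ∈ B, x * y = y * x) : SeparableSpace B := by
  let T : Set Ω := {α | ∃ b ∈ B, ¬ Tendsto ((b : AA hAD hP hPs) : ℕ →ᵇ M) (fl S α) (𝓝 0)}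
  by_cases hT : T.Countable
  · -- separable
    let G : Set (ℕ →ᵇ M) := (gen S P '' T) ∪ ⋃ n : ℕ, Set.range (fun x : M => pt n x)
    have hG : IsSeparable G := by
      apply IsSeparable.union
      · exact (hT.image _).isSeparable
      · apply IsSeparable.iUnion
        intro n
        apply isSeparable_range
        have : LipschitzWith 1 (fun x : M => pt n x) := by
          apply LipschitzWith.of_dist_le_mul
          intro x y
          rw [NNReal.coe_one, one_mul, dist_eq_norm, dist_eq_norm]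
          have : pt n x - pt n y = pt n (x - y) := by
            ext j
            rw [BoundedContinuousFunction.sub_apply, pt_apply, pt_apply, pt_apply]
            split_ifs <;> simp
          rw [this]
          exact pt_norm _ _
        exact this.continuous
    have hspan : IsSeparable ((Submodule.span ℂ G : Submodule ℂ (ℕ →ᵇ M)) : Set (ℕ →ᵇ M)) :=
      hG.span
    have hcl := hspan.closure
    let ι : B → (ℕ →ᵇ M) := fun b => ((b : AA hAD hP hPs) : ℕ →ᵇ M)
    have hι : IsInducing ι := by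
      have h1 : Isometry ι := fun x y => rfl
      exact (Isometry.isEmbedding h1).isInducing
    have h2 := hι.isSeparable_preimage hcl
    have h3 : ι ⁻¹' (closure ((Submodule.span ℂ G : Submodule ℂ (ℕ →ᵇ M)) : Set (ℕ →ᵇ M))) =
        Set.univ := by
      rw [Set.eq_univ_iff_forall]
      intro b
      show ι b ∈ closure _
      rw [Metric.mem_closure_iff]
      intro ε hε
      obtain ⟨y, hy, hay⟩ := approx hAD hP hPs (ι b) (b : AA hAD hP hPs).2 T (by
        intro α hα
        by_contra hcon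
        exact hα ⟨b, b.2, hcon⟩) (ε/2) (by positivity)
      refine ⟨y, hy, ?_⟩
      rw [dist_eq_norm]
      exact lt_of_le_of_lt hay (by linarith)
    rw [h3] at h2
    exact isSeparable_univ_iff.1 h2
  · exfalso
    have hb : ∀ α, ∃ b : AA hAD hP hPs, α ∈ T → b ∈ B ∧ Tendsto (b : ℕ →ᵇ M) (fl S α) (𝓝 (P α)) := by
      intro α
      by_cases hα : α ∈ T
      · obtain ⟨b, hbB, hb⟩ := hα
        obtain ⟨c, hc⟩ := app_lim hAD hinf (b.2 : App S P (b : ℕ →ᵇ M)) α
        have hc0 : c ≠ 0 := by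
          rintro rfl
          rw [zero_smul] at hc
          exact hb hc
        refine ⟨c⁻¹ • b, fun _ => ⟨SMulMemClass.smul_mem _ hbB, ?_⟩⟩
        have := hc.const_smul c⁻¹
        rw [inv_smul_smul₀ hc0] at this
        exact this
      · exact ⟨0, fun h => absurd h hα⟩
    choose b hb using hb
    obtain ⟨α0, hα0, β0, hβ0, hne, hU, hV⟩ := condense (P := P) T hT
    set κ := ‖P α0 * P β0 - P β0 * P α0‖ with hκ
    have hκ0 : 0 < κ := norm_pos_iff.2 (sub_ne_zero.2 (hnc α0 β0 hne))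
    have hcont : Continuous (fun p : M × M => ‖p.1 * p.2 - p.2 * p.1‖) := by fun_prop
    have hopen : {p : M × M | κ / 2 < ‖p.1 * p.2 - p.2 * p.1‖} ∈ 𝓝 (P α0, P β0) := by
      apply (isOpen_lt continuous_const hcont).mem_nhds
      show κ / 2 < κ
      linarith
    rw [nhds_prod_eq, Filter.mem_prod_iff] at hopen
    obtain ⟨U, hU1, V, hV1, hUV⟩ := hopen
    have hT1 := hU U hU1
    have hT2 := hV V hV1
    let ε : ℝ := min 1 (κ / 13)
    have hε0 : 0 < ε := lt_min one_pos (by positivity)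
    have hN : ∀ α, ∃ N : ℕ, α ∈ T → ∀ n ∈ S α, N ≤ n → ‖(b α : ℕ →ᵇ M) n - P α‖ ≤ ε := by
      intro α
      by_cases hα : α ∈ T
      · have h1 := (hb α hα).2
        rw [Metric.tendsto_nhds] at h1
        have h2 := (Filter.eventually_inf_principal).1 (h1 ε hε0)
        obtain ⟨N, hN⟩ := h2.exists_forall_of_atTop
        refine ⟨N, fun _ n hn hNn => ?_⟩
        have := hN n hNn hn
        rw [dist_eq_norm] at this
        exact this.le
      · exact ⟨0, fun h => absurd h hα⟩
    choose N hN using hN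
    have hpig : ∀ R : Set Ω, ¬ R.Countable → ∃ k, ¬ {α | α ∈ R ∧ N α ≤ k}.Countable := by
      intro R hR
      by_contra hcon
      push Not at hcon
      apply hR
      refine (Set.countable_iUnion hcon).mono ?_
      intro α hα
      simp only [Set.mem_iUnion]
      exact ⟨N α, hα, le_rfl⟩
    obtain ⟨k1, hk1⟩ := hpig _ hT1
    obtain ⟨k2, hk2⟩ := hpig _ hT2
    obtain ⟨α, ⟨⟨hαT, hαU⟩, hαk⟩, β, ⟨⟨hβT, hβV⟩, hβk⟩, n, hn, hnα, hnβ⟩ :=
      hLuz _ _ hk1 hk2 (max k1 k2)
    have h1 := hN α hαT n hnα (le_trans hαk (le_trans (le_max_left _ _) hn))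
    have h2 := hN β hβT n hnβ (le_trans hβk (le_trans (le_max_right _ _) hn))
    have hcomm : (b α : ℕ →ᵇ M) n * (b β : ℕ →ᵇ M) n = (b β : ℕ →ᵇ M) n * (b α : ℕ →ᵇ M) n := by
      have h3 := hB (b α) (hb α hαT).1 (b β) (hb β hβT).1
      have h4 : ((b α * b β : AA hAD hP hPs) : ℕ →ᵇ M) n = ((b β * b α : AA hAD hP hPs) : ℕ →ᵇ M) n := by
        rw [h3]
      exact h4
    have h5 := comm_est (P α) (P β) _ _ ε hε0.le (min_le_left _ _) (hP1 α) (hP1 β) h1 h2 hcomm
    have h6 : κ / 2 < ‖P α * P β - P β * P α‖ := hUV (Set.mk_mem_prod hαU hβV)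
    have h7 : ε ≤ κ / 13 := min_le_right _ _
    linarith

end

end Pool.Agent.Results.MP_b18d32_an.LuzinAlgebra.Alg


namespace Pool.Agent.Results.MP_b18d32_an.LuzinAlgebra

open Pool.Agent.Results.MP_b18d32_an.LuzinAlgebra.Her Pool.Agent.Results.MP_b18d32_an.LuzinAlgebra.Alg Pool.Agent.Results.MP_b18d32_an.LuzinAlgebra.Luzin
open scoped Matrix.Norms.L2Operator

/-- A rank one projection of slope `s`. -/
noncomputable def proj (s : ℝ) : Matrix (Fin 2) (Fin 2) ℂ :=
  !![((1 / (1 + s^2) : ℝ) : ℂ), ((s / (1 + s^2) : ℝ) : ℂ);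
     ((s / (1 + s^2) : ℝ) : ℂ), ((s^2 / (1 + s^2) : ℝ) : ℂ)]

lemma proj_mul (s : ℝ) : proj s * proj s = proj s := by
  have h : (1 + s^2) ≠ 0 := by positivity
  unfold proj
  rw [Matrix.mul_fin_two]
  have e1 : (1 / (1 + s^2)) * (1 / (1 + s^2)) + (s / (1 + s^2)) * (s / (1 + s^2)) = 1 / (1 + s^2) := by
    field_simp
  have e2 : (1 / (1 + s^2)) * (s / (1 + s^2)) + (s / (1 + s^2)) * (s^2 / (1 + s^2)) = s / (1 + s^2) := by
    field_simp
  have e3 : (s / (1 + s^2)) * (1 / (1 + s^2)) + (s^2 / (1 + s^2)) * (s / (1 + s^2)) = s / (1 + s^2) := by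
    field_simp
  have e4 : (s / (1 + s^2)) * (s / (1 + s^2)) + (s^2 / (1 + s^2)) * (s^2 / (1 + s^2)) =
      s^2 / (1 + s^2) := by
    field_simp
  rw [← Complex.ofReal_mul, ← Complex.ofReal_mul, ← Complex.ofReal_mul, ← Complex.ofReal_mul,
    ← Complex.ofReal_mul, ← Complex.ofReal_mul, ← Complex.ofReal_mul,
    ← Complex.ofReal_add, ← Complex.ofReal_add, ← Complex.ofReal_add, ← Complex.ofReal_add,
    e1, e2, e3, e4]

lemma proj_star (s : ℝ) : star (proj s) = proj s := by
  ext i j
  rw [Matrix.star_apply]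
  fin_cases i <;> fin_cases j <;> simp [proj]

lemma proj_ne (s : ℝ) : proj s ≠ 0 := by
  intro h
  have h1 := congrFun (congrFun h 0) 0
  have h2 : (1 + s^2) ≠ 0 := by positivity
  simp only [proj, Matrix.of_apply, Matrix.cons_val', Matrix.cons_val_zero, Matrix.zero_apply] at h1
  rw [Complex.ofReal_eq_zero] at h1
  exact (one_div_ne_zero h2) h1

lemma proj_norm (s : ℝ) : ‖proj s‖ = 1 := by
  have h1 : ‖proj s‖ = ‖proj s‖ * ‖proj s‖ := by
    conv_lhs => rw [← proj_mul s]
    have := CStarRing.norm_star_mul_self (x := proj s)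
    rw [proj_star] at this
    exact this
  have h2 : ‖proj s‖ ≠ 0 := norm_ne_zero_iff.2 (proj_ne s)
  have h3 : ‖proj s‖ * (‖proj s‖ - 1) = 0 := by linarith
  rcases mul_eq_zero.1 h3 with h | h
  · exact absurd h h2
  · linarith

lemma proj_comm (s t : ℝ) (hs : 0 < s) (ht : 0 < t) (h : proj s * proj t = proj t * proj s) :
    s = t := by
  have h1 := congrFun (congrFun h 0) 1
  unfold proj at h1
  rw [Matrix.mul_fin_two, Matrix.mul_fin_two] at h1
  simp only [Matrix.of_apply, Matrix.cons_val', Matrix.cons_val_zero, Matrix.cons_val_one] at h1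
  norm_cast at h1
  have e1 : (1 + s^2) ≠ 0 := by positivity
  have e2 : (1 + t^2) ≠ 0 := by positivity
  field_simp at h1
  exact h1.symm

/-- There is a C*-algebra which is not hereditary although all its commutative C*-subalgebras
(closed, self-adjoint, commutative subalgebras, not required to contain a unit) are hereditary. -/
theorem result : ∃ (A : Type) (_ : NonUnitalCStarAlgebra A), ¬ HereditaryCStar A ∧
    ∀ B : NonUnitalStarSubalgebra ℂ A, IsCommCStarSub B → SubHereditary B := by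
  obtain ⟨t, ht⟩ := Om_inj
  let S : Om → Set ℕ := fam
  let P : Om → Matrix (Fin 2) (Fin 2) ℂ := fun α => proj (Real.exp (t α))
  have hAD : ∀ α β, α ≠ β → (S α ∩ S β).Finite := fam_ad Om_Iio
  have hP : ∀ α, P α * P α = P α := fun α => proj_mul _
  have hPs : ∀ α, star (P α) = P α := fun α => proj_star _
  have hinf : ∀ α, (S α).Infinite := fam_inf Om_Iio
  have hP1 : ∀ α, ‖P α‖ = 1 := fun α => proj_norm _
  have hnc : ∀ α β, α ≠ β → P α * P β ≠ P β * P α := by
    intro α β hne h
    have h1 := proj_comm _ _ (Real.exp_pos _) (Real.exp_pos _) h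
    exact hne (ht (Real.exp_injective h1))
  have hsep : TopologicalSpace.SeparableSpace (Matrix (Fin 2) (Fin 2) ℂ) := inferInstance
  have h2nd : SecondCountableTopology (Matrix (Fin 2) (Fin 2) ℂ) := inferInstance
  refine ⟨AA hAD hP hPs, inferInstance, not_hereditary hAD hP hPs hinf hP1 Om_unc, ?_⟩
  rintro B ⟨hB, hcomm⟩
  have hBs : TopologicalSpace.SeparableSpace B :=
    comm_separable hAD hP hPs hinf hP1 hnc (fam_luzin Om_Iio) B hcomm
  let inst : NonUnitalCStarAlgebra B :=
    NonUnitalStarSubalgebra.nonUnitalCStarAlgebra B (h_closed := hB)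
  exact hereditary_of_separable (A := B)

end Pool.Agent.Results.MP_b18d32_an.LuzinAlgebra
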